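import Pool.Agent.H.MP_e16c79_al.N4.Tokf
import Pool.Agent.H.MP_e16c79_al.F4.Main

/-!
# MP_e16c79_al: Jordan rings of nil index four are solvable
-/

set_option autoImplicit false

namespace Pool.Agent.H.MP_e16c79_al.N4

variable {A : Type*} [NonUnitalNonAssocCommRing A]

/-- the class of a product of four operators, as a function for the certificate -/
def tok (h : Nil4 A) (S : AddSubgroup A) (hS : sq S ≤ S) : F4.Tok (Sub S hS) (MM S) where
  f := fq
  add1 := fq_add1
  add3 := fq_add3
  skewL := fq_skewL h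
  skewR := fq_skewR h
  t1 := fq_t1 h
  t2 := fq_t2 h

theorem solv_four [IsCommJordan A] (hT : TF A) (h4 : ∀ a : A, a * (a * (a * a)) = 0) :
    sq^[27] (⊤ : AddSubgroup A) = ⊥ := by
  refine solv_of_step3 (nil4_of hT h4) fun S hS => step3_sub (hS := hS) ?_
  intro a b c d e
  have : IsCommJordan (Sub S hS) := Sub.comm
  exact F4.main (Sub.tf hT) (MM_tf S) (fun x => Sub.inc_inj (h4 (Sub.inc x)))
    (tok (nil4_of hT h4) S hS) a b c d e

theorem solv_four_seq [IsCommJordan A] (h2 : ∀ a : A, 2 • a = 0 → a = 0)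
    (h3 : ∀ a : A, 3 • a = 0 → a = 0) (h4 : ∀ a : A, a * (a * (a * a)) = 0)
    (D : ℕ → AddSubgroup A) (h0 : D 0 = ⊤)
    (hD : ∀ i, D (i + 1) = AddSubgroup.closure {x : A | ∃ a ∈ D i, ∃ b ∈ D i, x = a * b}) :
    D 27 = ⊥ := by
  have hT : TF A := by
    constructor
    · intro a ha
      refine h2 a ?_
      rw [← ofNat_zsmul]
      exact ha
    · intro a ha
      refine h3 a ?_
      rw [← ofNat_zsmul]
      exact ha
  have h5 : ∀ i, D i = sq^[i] ⊤ := by
    intro i
    induction i with
    | zero => exact h0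
    | succ i ih =>
      rw [hD, ih, Function.iterate_succ_apply']
      rfl
  rw [h5]
  exact solv_four hT h4

end Pool.Agent.H.MP_e16c79_al.N4
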