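import Mathlib

/-!
# MP_e16c79_al, index four: the multilinear identities

`A` is a commutative Jordan ring without `2`- and `3`-torsion in which `x (x (x x)) = 0`.
-/

set_option autoImplicit false

namespace Pool.Agent.H.MP_e16c79_al.N4

/-- An additive group without elements of order `2` and `3`. -/
structure TF (A : Type*) [AddCommGroup A] : Prop where
  two : ∀ a : A, (2 : ℤ) • a = 0 → a = 0
  three : ∀ a : A, (3 : ℤ) • a = 0 → a = 0

variable {A : Type*} [NonUnitalNonAssocCommRing A]

theorem TF.four (h : TF A) {a : A} (ha : (4 : ℤ) • a = 0) : a = 0 := by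
  refine h.two _ (h.two _ ?_)
  rw [← mul_smul]
  exact ha

theorem TF.eight (h : TF A) {a : A} (ha : (8 : ℤ) • a = 0) : a = 0 := by
  refine h.two _ (h.four ?_)
  rw [← mul_smul]
  exact ha

/-- `(x²)² = 0` -/
theorem sq_sq [IsCommJordan A] (h4 : ∀ a : A, a * (a * (a * a)) = 0) (x : A) :
    (x * x) * (x * x) = 0 := by
  have h := IsCommJordan.lmul_comm_rmul_rmul x x
  rw [h4] at h
  exact h

theorem sq_two [IsCommJordan A] (hT : TF A) (h4 : ∀ a : A, a * (a * (a * a)) = 0) (x y : A) :
    (2 : ℤ) • ((x * y) * (x * y)) + (x * x) * (y * y) = 0 := by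
  have h1 := sq_sq h4 (x + y)
  have h2 := sq_sq h4 (x - y)
  have hx := sq_sq h4 x
  have hy := sq_sq h4 y
  have e1 : (x + y) * (x + y) = x * x + (2 : ℤ) • (x * y) + y * y := by
    simp only [mul_add, add_mul, mul_comm y x, two_smul]
    abel
  have e2 : (x - y) * (x - y) = x * x - (2 : ℤ) • (x * y) + y * y := by
    simp only [mul_sub, sub_mul, mul_comm y x, two_smul]
    abel
  rw [e1] at h1
  rw [e2] at h2
  refine hT.four ?_
  have c1 := mul_comm (x * y) (x * x)
  have c2 := mul_comm (y * y) (x * x)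
  have c3 := mul_comm (y * y) (x * y)
  simp only [mul_add, add_mul, mul_sub, sub_mul, smul_mul_assoc, mul_smul_comm, hx, hy, c1, c2,
    c3] at h1 h2
  have h3 := congrArg₂ (· + ·) h1 h2
  simp only [add_zero] at h3
  rw [← h3]
  module

theorem sq_three [IsCommJordan A] (hT : TF A) (h4 : ∀ a : A, a * (a * (a * a)) = 0)
    (x y w : A) : (2 : ℤ) • ((x * y) * (x * w)) + (x * x) * (y * w) = 0 := by
  have h1 := sq_two hT h4 x (y + w)
  have h2 := sq_two hT h4 x y
  have h3 := sq_two hT h4 x w
  refine hT.two _ ?_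
  have c1 := mul_comm (x * w) (x * y)
  have c2 := mul_comm w y
  simp only [mul_add, add_mul, c1, c2] at h1
  have h5 : (2 : ℤ) • ((2 : ℤ) • ((x * y) * (x * w)) + (x * x) * (y * w)) =
      ((2 : ℤ) • (x * y * (x * y) + x * y * (x * w) + (x * y * (x * w) + x * w * (x * w))) +
        (x * x * (y * y) + x * x * (y * w) + (x * x * (y * w) + x * x * (w * w)))) -
      ((2 : ℤ) • ((x * y) * (x * y)) + (x * x) * (y * y)) -
      ((2 : ℤ) • ((x * w) * (x * w)) + (x * x) * (w * w)) := by
    module
  rw [h5, h2, h3, sub_zero, sub_zero]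
  exact h1

/-- (A) -/
theorem idA [IsCommJordan A] (hT : TF A) (h4 : ∀ a : A, a * (a * (a * a)) = 0)
    (x y z t : A) : (x * y) * (z * t) + (x * z) * (y * t) + (x * t) * (y * z) = 0 := by
  have h1 := sq_three hT h4 (x + z) y t
  have h2 := sq_three hT h4 x y t
  have h3 := sq_three hT h4 z y t
  refine hT.two _ ?_
  have c1 := mul_comm z x
  have c2 := mul_comm z y
  have c3 := mul_comm z t
  simp only [add_mul, mul_add, c1] at h1
  have h5 : (2 : ℤ) • ((x * y) * (z * t) + (x * z) * (y * t) + (x * t) * (y * z)) =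
      ((2 : ℤ) • ((x * y) * (x * t) + (z * y) * (x * t) + ((x * y) * (z * t) +
        (z * y) * (z * t))) +
        (x * x * (y * t) + x * z * (y * t) + (x * z * (y * t) + z * z * (y * t)))) -
      ((2 : ℤ) • ((x * y) * (x * t)) + (x * x) * (y * t)) -
      ((2 : ℤ) • ((z * y) * (z * t)) + (z * z) * (y * t)) := by
    rw [c2, mul_comm (x * t) (y * z)]
    module
  rw [h5, h2, h3, sub_zero, sub_zero]
  exact h1

end Pool.Agent.H.MP_e16c79_al.N4
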