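import Pool.Agent.H.MP_e16c79_al.N4.Chk

/-!
# MP_e16c79_al, index four: the checker

Words are coded by numbers in base `256` with a leading `1`. A certificate is a list of items: coefficient, left word,
kind, three monomials, right word.
-/

set_option autoImplicit false

namespace Pool.Agent.H.MP_e16c79_al.N4

variable {A : Type*} [NonUnitalNonAssocCommRing A]

/-- append letters to a coded word -/
def push (n : ℕ) : List ℕ → ℕ
  | [] => n
  | c :: w => push (n * 256 + c) w

/-- value of a coded word -/
noncomputable def cv (x : ℕ → A) (n : ℕ) : AddMonoid.End A :=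
  if n < 256 then 1 else cv x (n / 256) * lv x (n % 256)
decreasing_by omega

theorem cv_step (x : ℕ → A) {n c : ℕ} (hn : 1 ≤ n) (hc : c < 256) :
    cv x (n * 256 + c) = cv x n * lv x c := by
  rw [cv, if_neg (by omega)]
  have e1 : (n * 256 + c) / 256 = n := by omega
  have e2 : (n * 256 + c) % 256 = c := by omega
  rw [e1, e2]

/-- all letters are less than `256` -/
def wok (w : List ℕ) : Bool := w.all fun c => decide (c < 256)

theorem cv_push (x : ℕ → A) (w : List ℕ) : ∀ {n : ℕ}, 1 ≤ n → wok w = true →
    cv x (push n w) = cv x n * wv x w := by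
  induction w with
  | nil =>
    intro n _ _
    simp [push, wv]
  | cons c w ih =>
    intro n hn hw
    have hc : c < 256 ∧ wok w = true := by simpa [wok] using hw
    rw [push, ih (by omega) hc.2, cv_step x hn hc.1, mul_assoc]
    simp [wv]

theorem push_pos (w : List ℕ) : ∀ {n : ℕ}, 1 ≤ n → 1 ≤ push n w := by
  induction w with
  | nil => exact fun h => h
  | cons c w ih => exact fun h => ih (by omega)

/-- sorted lists of coded words with coefficients -/
abbrev SL := List (ℕ × ℤ)

/-- value -/
noncomputable def sv (x : ℕ → A) (p : SL) : AddMonoid.End A := (p.map fun q => q.2 • cv x q.1).sum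

@[simp] theorem sv_nil (x : ℕ → A) : sv x [] = 0 := rfl

@[simp] theorem sv_cons (x : ℕ → A) (q : ℕ × ℤ) (p : SL) :
    sv x (q :: p) = q.2 • cv x q.1 + sv x p := by
  simp [sv]

theorem sv_append (x : ℕ → A) (p q : SL) : sv x (p ++ q) = sv x p + sv x q := by
  simp [sv]

/-- merging -/
def mrg : ℕ → SL → SL → SL
  | 0, l, m => l ++ m
  | _ + 1, [], m => m
  | _ + 1, a :: l, [] => a :: l
  | k + 1, a :: l, b :: m =>
    if Nat.blt a.1 b.1 then a :: mrg k l (b :: m)
    else if Nat.blt b.1 a.1 then b :: mrg k (a :: l) m
    else if a.2 + b.2 = 0 then mrg k l m else (a.1, a.2 + b.2) :: mrg k l m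

theorem sv_mrg (x : ℕ → A) (k : ℕ) : ∀ l m : SL, sv x (mrg k l m) = sv x l + sv x m := by
  induction k with
  | zero => exact fun l m => sv_append x l m
  | succ k ih =>
    intro l m
    rcases l with _ | ⟨a, l⟩
    · simp [mrg]
    rcases m with _ | ⟨b, m⟩
    · simp [mrg]
    rw [mrg]
    split_ifs with h1 h2 h3
    · rw [sv_cons, ih, sv_cons, sv_cons]
      abel
    · rw [sv_cons, ih, sv_cons, sv_cons]
      abel
    · have e : a.1 = b.1 := by
        simp only [Nat.blt_eq] at h1 h2
        omega
      rw [ih, sv_cons, sv_cons, e]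
      have h4 : a.2 • cv x b.1 + b.2 • cv x b.1 = 0 := by
        rw [← add_smul, h3, zero_smul]
      calc sv x l + sv x m = (a.2 • cv x b.1 + b.2 • cv x b.1) + (sv x l + sv x m) := by
            rw [h4, zero_add]
        _ = _ := by abel
    · have e : a.1 = b.1 := by
        simp only [Nat.blt_eq] at h1 h2
        omega
      rw [sv_cons, ih, sv_cons, sv_cons]
      simp only [e]
      rw [add_smul]
      abel

/-- one round of merging neighbours -/
def prs (k : ℕ) : List SL → List SL
  | a :: b :: l => mrg k a b :: prs k l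
  | l => l

/-- value of a list of lists -/
noncomputable def ssv (x : ℕ → A) (p : List SL) : AddMonoid.End A := (p.map (sv x)).sum

theorem ssv_prs (x : ℕ → A) (k : ℕ) (p : List SL) : ssv x (prs k p) = ssv x p := by
  induction p using prs.induct with
  | case1 a b l ih =>
    have h1 : ssv x (prs k (a :: b :: l)) = sv x (mrg k a b) + ssv x (prs k l) := by
      simp [prs, ssv]
    rw [h1, sv_mrg, ih]
    simp [ssv, add_assoc]
  | case2 l hl =>
    rw [prs]
    exact hl

/-- merge all; `n` rounds -/
def mall (k : ℕ) : ℕ → List SL → List SL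
  | 0, p => p
  | n + 1, p => mall k n (prs k p)

theorem ssv_mall (x : ℕ → A) (k n : ℕ) : ∀ p : List SL, ssv x (mall k n p) = ssv x p := by
  induction n with
  | zero => exact fun p => rfl
  | succ n ih => exact fun p => by rw [mall, ih, ssv_prs]

/-- an item of a certificate -/
structure Item where
  c : ℤ
  l : List ℕ
  k : ℕ
  x : Mn
  y : Mn
  z : Mn
  r : List ℕ

/-- the relation of an item -/
def Item.rel (i : Item) : Pol :=
  match i.k with
  | 0 => pmul (red (.m i.x i.y)) (red i.z) ++ (pmul (red (.m i.y i.z)) (red i.x) ++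
      pmul (red (.m i.z i.x)) (red i.y))
  | 1 => pmul (red i.z) (red (.m i.x i.y)) ++ (pmul (red i.x) (red (.m i.y i.z)) ++
      pmul (red i.y) (red (.m i.z i.x)))
  | _ => red (.m i.x i.y) ++ psmul (-1) (red (.m i.y i.x))

/-- generators less than `16` -/
def Item.ok (i : Item) : Bool := i.x.ok && i.y.ok && i.z.ok

theorem Item.rel_zero (h : Nil4 A) (x : ℕ → A) (i : Item) (hi : i.ok = true) :
    pv x i.rel = 0 := by
  have hok : (i.x.ok = true ∧ i.y.ok = true) ∧ i.z.ok = true := by simpa [Item.ok] using hi
  obtain ⟨⟨h1, h2⟩, h3⟩ := hok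
  have hxy : (Mn.m i.x i.y).ok = true := by simp [Mn.ok, h1, h2]
  have hyx : (Mn.m i.y i.x).ok = true := by simp [Mn.ok, h1, h2]
  have hyz : (Mn.m i.y i.z).ok = true := by simp [Mn.ok, h2, h3]
  have hzx : (Mn.m i.z i.x).ok = true := by simp [Mn.ok, h1, h3]
  unfold Item.rel
  split
  · rw [pv_append, pv_append, pv_pmul, pv_pmul, pv_pmul, red_sound h x _ hxy,
      red_sound h x _ hyz, red_sound h x _ hzx, red_sound h x _ h1, red_sound h x _ h2,
      red_sound h x _ h3, ← add_assoc]
    exact h.r1 _ _ _
  · rw [pv_append, pv_append, pv_pmul, pv_pmul, pv_pmul, red_sound h x _ hxy,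
      red_sound h x _ hyz, red_sound h x _ hzx, red_sound h x _ h1, red_sound h x _ h2,
      red_sound h x _ h3, ← add_assoc]
    exact h.r2 _ _ _
  · rw [pv_append, pv_psmul, red_sound h x _ hxy, red_sound h x _ hyx]
    show L (i.x.ev x * i.y.ev x) + _ • L (i.y.ev x * i.x.ev x) = 0
    rw [mul_comm (i.y.ev x), neg_one_zsmul, add_neg_cancel]

/-- the terms of a polynomial with a coefficient and words on both sides -/
def terms (c : ℤ) (l : List ℕ) (r : List ℕ) : Pol → SL
  | [] => []
  | q :: p => (push (push (push 1 l) q.2) r, c * q.1) :: terms c l r p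

/-- all letters of a polynomial are less than `256` -/
def pok (p : Pol) : Bool := p.all fun q => wok q.2

theorem sv_terms (x : ℕ → A) (c : ℤ) {l r : List ℕ} (hl : wok l = true) (hr : wok r = true)
    (p : Pol) (hp : pok p = true) : sv x (terms c l r p) = c • (wv x l * pv x p * wv x r) := by
  induction p with
  | nil => simp [terms]
  | cons q p ih =>
    have hq : wok q.2 = true ∧ pok p = true := by simpa [pok] using hp
    rw [terms, sv_cons, ih hq.2]
    show (c * q.1) • cv x (push (push (push 1 l) q.2) r) + _ = _
    rw [cv_push x r (push_pos _ (push_pos _ le_rfl)) hr,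
      cv_push x q.2 (push_pos _ le_rfl) hq.1, cv_push x l le_rfl hl, pv_cons, mul_smul]
    have e : cv x 1 = 1 := by rw [cv, if_pos (by norm_num)]
    rw [e, one_mul]
    simp only [mul_add, add_mul, zsmul_add, mul_smul_comm, smul_mul_assoc]

/-- the terms of an item as singletons -/
def Item.out (i : Item) : List SL := (terms i.c i.l i.r i.rel).map fun q => [q]

/-- conditions for an item -/
def Item.good (i : Item) : Bool := i.ok && wok i.l && wok i.r && pok i.rel

theorem ssv_single (x : ℕ → A) (p : SL) : ssv x (p.map fun q => [q]) = sv x p := by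
  simp [ssv, sv, Function.comp_def]

theorem ssv_append (x : ℕ → A) (p q : List SL) : ssv x (p ++ q) = ssv x p + ssv x q := by
  simp [ssv]

theorem Item.out_zero (h : Nil4 A) (x : ℕ → A) (i : Item) (hi : i.good = true) :
    ssv x i.out = 0 := by
  have hg : ((i.ok = true ∧ wok i.l = true) ∧ wok i.r = true) ∧ pok i.rel = true := by
    simpa [Item.good] using hi
  rw [Item.out, ssv_single, sv_terms x _ hg.1.1.2 hg.1.2 _ hg.2, i.rel_zero h x hg.1.1.1]
  simp

/-- the check: the certificate `C` proves `N` times the polynomial `p`; `k` bounds the lengths of the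
lists, `n` is the number of rounds -/
def check (k n : ℕ) (C : List Item) (N : ℤ) (p : Pol) : Bool :=
  C.all Item.good && pok p &&
    (mall k n ((C.flatMap Item.out) ++ (terms (-N) [] [] p).map fun q => [q])).all List.isEmpty

theorem check_sound (h : Nil4 A) (x : ℕ → A) {k n : ℕ} {C : List Item} {N : ℤ} {p : Pol}
    (hc : check k n C N p = true) : N • pv x p = 0 := by
  unfold check at hc
  rw [Bool.and_eq_true, Bool.and_eq_true] at hc
  obtain ⟨⟨h1, h2⟩, h3⟩ := hc
  have e1 : ssv x (C.flatMap Item.out) = 0 := by
    clear h3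
    induction C with
    | nil => simp [ssv]
    | cons i C ih =>
      rw [List.all_cons, Bool.and_eq_true] at h1
      rw [List.flatMap_cons, ssv_append, i.out_zero h x h1.1, ih h1.2, add_zero]
  have e2 : ssv x ((terms (-N) [] [] p).map fun q => [q]) = -(N • pv x p) := by
    rw [ssv_single, sv_terms x _ rfl rfl _ h2]
    simp [wv]
  have e3 : ∀ l : List SL, l.all List.isEmpty = true → ssv x l = 0 := by
    intro l
    induction l with
    | nil => intro _; simp [ssv]
    | cons a l ih =>
      intro hl
      rw [List.all_cons, Bool.and_eq_true] at hl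
      have ha : a = [] := List.isEmpty_iff.1 hl.1
      have := ih hl.2
      simp only [ssv, List.map_cons, List.sum_cons] at this ⊢
      rw [ha, sv_nil, this, add_zero]
  have e4 := e3 _ h3
  rw [ssv_mall, ssv_append, e1, e2, zero_add, neg_eq_zero] at e4
  exact e4

end Pool.Agent.H.MP_e16c79_al.N4
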