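import Pool.Agent.H.MP_e16c79_al.N4.Ops

/-!
# MP_e16c79_al, index four: derived series, quotient by the annihilator, subrings
-/

set_option autoImplicit false

namespace Pool.Agent.H.MP_e16c79_al.N4

section sq

variable {A : Type*} [NonUnitalNonAssocCommRing A]

/-- the subgroup generated by the products of two elements -/
def sq (B : AddSubgroup A) : AddSubgroup A :=
  AddSubgroup.closure {x : A | ∃ a ∈ B, ∃ b ∈ B, x = a * b}

theorem mul_mem_sq {B : AddSubgroup A} {a b : A} (ha : a ∈ B) (hb : b ∈ B) : a * b ∈ sq B :=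
  AddSubgroup.subset_closure ⟨a, ha, b, hb, rfl⟩

theorem sq_mono {B C : AddSubgroup A} (h : B ≤ C) : sq B ≤ sq C := by
  refine AddSubgroup.closure_mono ?_
  rintro x ⟨a, ha, b, hb, rfl⟩
  exact ⟨a, h ha, b, h hb, rfl⟩

theorem iter_mono (k : ℕ) {B C : AddSubgroup A} (h : B ≤ C) : sq^[k] B ≤ sq^[k] C := by
  induction k generalizing B C with
  | zero => exact h
  | succ k ih => exact ih (sq_mono h)

theorem iter_le (k : ℕ) : sq (sq^[k] (⊤ : AddSubgroup A)) ≤ sq^[k] ⊤ := by
  rw [← Function.iterate_succ_apply' sq k]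
  rw [Function.iterate_succ_apply]
  exact iter_mono k le_top

theorem map_sq {C : Type*} [NonUnitalNonAssocCommRing C] (f : A →+ C)
    (hf : ∀ a b, f (a * b) = f a * f b) (B : AddSubgroup A) : (sq B).map f = sq (B.map f) := by
  unfold sq
  rw [AddMonoidHom.map_closure]
  congr 1
  ext x
  constructor
  · rintro ⟨y, ⟨a, ha, b, hb, rfl⟩, rfl⟩
    exact ⟨f a, ⟨a, ha, rfl⟩, f b, ⟨b, hb, rfl⟩, hf a b⟩
  · rintro ⟨x', ⟨a, ha, rfl⟩, y', ⟨b, hb, rfl⟩, rfl⟩
    exact ⟨a * b, ⟨a, ha, b, hb, rfl⟩, hf a b⟩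

theorem map_iter {C : Type*} [NonUnitalNonAssocCommRing C] (f : A →+ C)
    (hf : ∀ a b, f (a * b) = f a * f b) (k : ℕ) (B : AddSubgroup A) :
    (sq^[k] B).map f = sq^[k] (B.map f) := by
  induction k generalizing B with
  | zero => rfl
  | succ k ih => rw [Function.iterate_succ_apply, Function.iterate_succ_apply, ih, map_sq f hf]

/-- the conclusion of the frozen statement -/
theorem solv_of {k : ℕ} (h : sq^[k] (⊤ : AddSubgroup A) = ⊥) :
    ∃ (D : ℕ → AddSubgroup A) (k : ℕ), D 0 = ⊤ ∧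
      (∀ i : ℕ, D (i + 1) = AddSubgroup.closure {x : A | ∃ a ∈ D i, ∃ b ∈ D i, x = a * b}) ∧
      D k = ⊥ :=
  ⟨fun i => sq^[i] ⊤, k, rfl, fun i => Function.iterate_succ_apply' sq i ⊤, h⟩

end sq

section sub

variable {A : Type*} [NonUnitalNonAssocCommRing A]

/-- A subring as a type. -/
structure Sub (B : AddSubgroup A) (hB : sq B ≤ B) where
  v : B

variable {B : AddSubgroup A} {hB : sq B ≤ B}

namespace Sub

theorem ext' {x y : Sub B hB} (h : (x.v : A) = y.v) : x = y := by
  cases x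
  cases y
  simp only at h
  congr
  exact Subtype.ext h

instance : Zero (Sub B hB) := ⟨⟨0⟩⟩
instance : Add (Sub B hB) := ⟨fun x y => ⟨x.v + y.v⟩⟩
instance : Neg (Sub B hB) := ⟨fun x => ⟨-x.v⟩⟩
instance : _root_.Sub (Sub B hB) := ⟨fun x y => ⟨x.v - y.v⟩⟩
instance : SMul ℕ (Sub B hB) := ⟨fun n x => ⟨n • x.v⟩⟩
instance : SMul ℤ (Sub B hB) := ⟨fun n x => ⟨n • x.v⟩⟩
instance : Mul (Sub B hB) := ⟨fun x y => ⟨⟨x.v * y.v, hB (mul_mem_sq x.v.2 y.v.2)⟩⟩⟩

/-- the inclusion -/
def inc (x : Sub B hB) : A := x.v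

theorem inc_inj : Function.Injective (inc : Sub B hB → A) := fun _ _ h => ext' h

instance : NonUnitalNonAssocCommRing (Sub B hB) :=
  Function.Injective.nonUnitalNonAssocCommRing inc inc_inj rfl (fun _ _ => rfl) (fun _ _ => rfl)
    (fun _ => rfl) (fun _ _ => rfl) (fun _ _ => rfl) (fun _ _ => rfl)

/-- the inclusion as a homomorphism -/
def incHom : Sub B hB →+ A where
  toFun := inc
  map_zero' := rfl
  map_add' _ _ := rfl

theorem incHom_mul (x y : Sub B hB) : incHom (x * y) = incHom x * incHom y := rfl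

theorem incHom_mem (x : Sub B hB) : incHom x ∈ B := x.v.2

theorem map_top : (⊤ : AddSubgroup (Sub B hB)).map incHom = B := by
  ext x
  constructor
  · rintro ⟨y, -, rfl⟩
    exact y.v.2
  · intro hx
    exact ⟨⟨⟨x, hx⟩⟩, AddSubgroup.mem_top _, rfl⟩

theorem tf (h : TF A) : TF (Sub B hB) := by
  constructor
  · intro a ha
    have h1 : (2 : ℤ) • incHom a = 0 := by
      rw [← map_zsmul, ha, map_zero]
    exact inc_inj (h.two _ h1)
  · intro a ha
    have h1 : (3 : ℤ) • incHom a = 0 := by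
      rw [← map_zsmul, ha, map_zero]
    exact inc_inj (h.three _ h1)

theorem iter_eq {k : ℕ} (h : sq^[k] (⊤ : AddSubgroup (Sub B hB)) = ⊥) : sq^[k] B = ⊥ := by
  have h1 := map_iter (incHom : Sub B hB →+ A) incHom_mul k ⊤
  rw [h, map_top] at h1
  rw [← h1]
  simp

end Sub

end sub

section quo

variable (A : Type*) [NonUnitalNonAssocCommRing A]

/-- the annihilator -/
def ann : AddSubgroup A where
  carrier := {x | ∀ y, x * y = 0}
  zero_mem' := fun y => zero_mul y
  add_mem' := fun {a b} ha hb y => by rw [add_mul, ha y, hb y, add_zero]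
  neg_mem' := fun {a} ha y => by rw [neg_mul, ha y, neg_zero]

/-- the quotient by the annihilator -/
abbrev Quo := A ⧸ ann A

variable {A}

theorem mk_eq_iff {x y : A} : (x : Quo A) = y ↔ ∀ z, x * z = y * z := by
  rw [QuotientAddGroup.eq]
  constructor
  · intro h z
    have h1 := h z
    rw [add_mul, neg_mul, neg_add_eq_zero] at h1
    exact h1
  · intro h z
    rw [add_mul, neg_mul, neg_add_eq_zero]
    exact h z

instance : Mul (Quo A) := ⟨Quotient.map₂ (· * ·) (by
  intro a a' ha b b' hb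
  have h1 : ∀ z, a * z = a' * z := mk_eq_iff.1 (Quotient.sound ha)
  have h2 : ∀ z, b * z = b' * z := mk_eq_iff.1 (Quotient.sound hb)
  refine QuotientAddGroup.leftRel_apply.2 ?_
  show -(a * b) + a' * b' ∈ ann A
  have h3 : a * b = a' * b' := by rw [h1, mul_comm a', h2, mul_comm]
  rw [h3, neg_add_cancel]
  exact (ann A).zero_mem)⟩

theorem mk_mul (x y : A) : ((x * y : A) : Quo A) = (x : Quo A) * (y : Quo A) := rfl

instance : NonUnitalNonAssocCommRing (Quo A) :=
  Function.Surjective.nonUnitalNonAssocCommRing (fun x : A => (x : Quo A))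
    QuotientAddGroup.mk_surjective rfl (fun _ _ => rfl) (fun _ _ => rfl)
    (fun _ => rfl) (fun _ _ => rfl) (fun _ _ => rfl) (fun _ _ => rfl)

/-- the projection -/
def quo : A →+ Quo A where
  toFun := fun x => (x : Quo A)
  map_zero' := rfl
  map_add' _ _ := rfl

theorem quo_mul (x y : A) : quo (x * y) = quo x * quo y := rfl

theorem quo_surj : Function.Surjective (quo : A →+ Quo A) := QuotientAddGroup.mk_surjective

theorem quo_eq_zero {x : A} : quo x = 0 ↔ ∀ z, x * z = 0 := by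
  have h := mk_eq_iff (x := x) (y := 0)
  simp only [zero_mul] at h
  exact h

theorem quo_tf (h : TF A) : TF (Quo A) := by
  constructor
  · intro a ha
    obtain ⟨x, rfl⟩ := quo_surj a
    rw [← map_zsmul, quo_eq_zero] at ha
    rw [quo_eq_zero]
    intro z
    refine h.two _ ?_
    rw [← smul_mul_assoc]
    exact ha z
  · intro a ha
    obtain ⟨x, rfl⟩ := quo_surj a
    rw [← map_zsmul, quo_eq_zero] at ha
    rw [quo_eq_zero]
    intro z
    refine h.three _ ?_
    rw [← smul_mul_assoc]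
    exact ha z

theorem quo_iter {k : ℕ} (h : sq^[k] (⊤ : AddSubgroup (Quo A)) = ⊥) :
    sq^[k + 1] (⊤ : AddSubgroup A) = ⊥ := by
  have h1 := map_iter (quo : A →+ Quo A) quo_mul k ⊤
  rw [AddSubgroup.map_top_of_surjective _ quo_surj, h] at h1
  have h2 : ∀ x ∈ sq^[k] (⊤ : AddSubgroup A), ∀ z, x * z = 0 := by
    intro x hx
    rw [← quo_eq_zero]
    have h3 : quo x ∈ (sq^[k] (⊤ : AddSubgroup A)).map quo := ⟨x, hx, rfl⟩
    rw [h1] at h3
    exact h3
  rw [Function.iterate_succ_apply', eq_bot_iff]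
  refine (AddSubgroup.closure_le _).2 ?_
  rintro x ⟨a, ha, b, hb, rfl⟩
  exact h2 a ha b

end quo

end Pool.Agent.H.MP_e16c79_al.N4
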