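import Pool.Agent.H.MP_e16c79_al.N4.Cert
import Pool.Agent.H.MP_e16c79_al.N4.Frame

/-!
# MP_e16c79_al: certificates for rings of nil index three

Words in the letters `0, 1, 2, 3`. A certificate is checked up to the group generated by the exchanges
`0 ↔ 1`, `2 ↔ 3`, `(0, 1) ↔ (2, 3)` and the reversal.
-/

set_option autoImplicit false

namespace Pool.Agent.H.MP_e16c79_al.N4

section ring

variable {R : Type*} [Ring R]

/-- value of a word -/
def w3 (v : ℕ → R) (w : List ℕ) : R := (w.map v).prod

/-- value of a polynomial -/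
def p3 (v : ℕ → R) (p : Pol) : R := (p.map fun q => q.1 • w3 v q.2).sum

theorem w3_append (v : ℕ → R) (u w : List ℕ) : w3 v (u ++ w) = w3 v u * w3 v w := by
  simp [w3]

@[simp] theorem p3_nil (v : ℕ → R) : p3 v [] = 0 := rfl

@[simp] theorem p3_cons (v : ℕ → R) (q : ℤ × List ℕ) (p : Pol) :
    p3 v (q :: p) = q.1 • w3 v q.2 + p3 v p := by
  simp [p3]

theorem p3_append (v : ℕ → R) (p q : Pol) : p3 v (p ++ q) = p3 v p + p3 v q := by
  simp [p3]

theorem p3_tmul (v : ℕ → R) (c : ℤ) (w : List ℕ) (p : Pol) :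
    p3 v (tmul c w p) = c • (w3 v w * p3 v p) := by
  induction p with
  | nil => simp [tmul]
  | cons q p ih =>
    have h1 : tmul c w (q :: p) = (c * q.1, w ++ q.2) :: tmul c w p := rfl
    rw [h1, p3_cons, p3_cons, ih, w3_append, mul_add, zsmul_add, mul_smul_comm]
    show (c * q.1) • _ + _ = _
    rw [mul_smul]

theorem p3_pmul (v : ℕ → R) (p q : Pol) : p3 v (pmul p q) = p3 v p * p3 v q := by
  induction p with
  | nil => simp [pmul]
  | cons r p ih =>
    have h1 : pmul (r :: p) q = tmul r.1 r.2 q ++ pmul p q := rfl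
    rw [h1, p3_append, p3_tmul, ih, p3_cons, add_mul, smul_mul_assoc]

theorem p3_psmul (v : ℕ → R) (c : ℤ) (p : Pol) : p3 v (psmul c p) = c • p3 v p := by
  rw [psmul, p3_tmul]
  simp [w3]

/-- reversal -/
def rvp (p : Pol) : Pol := p.map fun q => (q.1, q.2.reverse)

theorem p3_rvp_append (v : ℕ → R) (p q : Pol) :
    p3 v (rvp (p ++ q)) = p3 v (rvp p) + p3 v (rvp q) := by
  rw [rvp, List.map_append, p3_append]
  rfl

theorem p3_rvp_tmul (v : ℕ → R) (c : ℤ) (w : List ℕ) (p : Pol) :
    p3 v (rvp (tmul c w p)) = c • (p3 v (rvp p) * w3 v w.reverse) := by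
  induction p with
  | nil => simp [tmul, rvp]
  | cons q p ih =>
    have h1 : rvp (tmul c w (q :: p)) = (c * q.1, (w ++ q.2).reverse) :: rvp (tmul c w p) := rfl
    have h2 : rvp (q :: p) = (q.1, q.2.reverse) :: rvp p := rfl
    rw [h1, h2, p3_cons, p3_cons, ih, List.reverse_append, w3_append, add_mul, zsmul_add,
      smul_mul_assoc]
    show (c * q.1) • _ + _ = _
    rw [mul_smul]

theorem p3_rvp_pmul (v : ℕ → R) (p q : Pol) :
    p3 v (rvp (pmul p q)) = p3 v (rvp q) * p3 v (rvp p) := by
  induction p with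
  | nil => simp [pmul, rvp]
  | cons r p ih =>
    have h1 : pmul (r :: p) q = tmul r.1 r.2 q ++ pmul p q := rfl
    have h2 : rvp (r :: p) = (r.1, r.2.reverse) :: rvp p := rfl
    rw [h1, h2, p3_rvp_append, p3_rvp_tmul, ih, p3_cons, mul_add, mul_smul_comm]

end ring

/-- the operator of a monomial -/
def red3 : Mn → Pol
  | .g n => [(1, [n])]
  | .m s t => psmul (-1) (pmul (red3 s) (red3 t) ++ pmul (red3 t) (red3 s))

/-- the symmetric product of three polynomials -/
def sym3 (p q r : Pol) : Pol :=
  pmul p (pmul q r) ++ (pmul p (pmul r q) ++ (pmul q (pmul p r) ++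
    (pmul q (pmul r p) ++ (pmul r (pmul p q) ++ pmul r (pmul q p)))))

theorem p3_rvp_red3 {R : Type*} [Ring R] (v : ℕ → R) (t : Mn) :
    p3 v (rvp (red3 t)) = p3 v (red3 t) := by
  induction t with
  | g n => rfl
  | m s t ihs iht =>
    rw [red3, psmul, p3_rvp_tmul, p3_rvp_append, p3_rvp_pmul, p3_rvp_pmul, ihs, iht, p3_tmul,
      p3_append, p3_pmul, p3_pmul]
    simp only [w3, List.reverse_nil, List.map_nil, List.prod_nil, mul_one, one_mul]
    rw [add_comm]

variable {A : Type*} [NonUnitalNonAssocCommRing A]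

/-- A commutative ring (not associative) without `2`- and `3`-torsion with `x³ = 0`, linearized. -/
structure Nil3 (A : Type*) [NonUnitalNonAssocCommRing A] : Prop where
  tf : TF A
  c : ∀ x y z : A, (x * y) * z + (y * z) * x + (z * x) * y = 0

namespace Nil3

variable (h : Nil3 A)
include h

theorem r0 (x y : A) : L (x * y) = -(L x * L y + L y * L x) := by
  ext z
  have h1 := h.c x y z
  show x * y * z = -(x * (y * z) + y * (x * z))
  rw [eq_neg_iff_add_eq_zero, ← h1, mul_comm (y * z) x, mul_comm (z * x) y, mul_comm z x]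
  abel

theorem r1 (x y z : A) : L x * (L y * L z) + (L x * (L z * L y) + (L y * (L x * L z) +
    (L y * (L z * L x) + (L z * (L x * L y) + L z * (L y * L x))))) = 0 := by
  have h1 : L ((x * y) * z + (y * z) * x + (z * x) * y) = 0 := by rw [h.c, map_zero]
  rw [map_add, map_add, h.r0, h.r0, h.r0 (y * z), h.r0 y z, h.r0 (z * x), h.r0 z x] at h1
  refine h.tf.end_two ?_
  rw [← h1]
  noncomm_ring

theorem red (x : ℕ → A) (t : Mn) : p3 (fun n => L (x n)) (red3 t) = L (t.ev x) := by
  induction t with
  | g n => simp [red3, w3, Mn.ev]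
  | m s t ihs iht =>
    rw [red3, p3_psmul, p3_append, p3_pmul, p3_pmul, ihs, iht, neg_one_zsmul]
    exact (h.r0 _ _).symm

theorem sym (x : ℕ → A) (s t u : Mn) :
    p3 (fun n => L (x n)) (sym3 (red3 s) (red3 t) (red3 u)) = 0 := by
  simp only [sym3, p3_append, p3_pmul, h.red]
  exact h.r1 _ _ _

theorem sym_rvp (x : ℕ → A) (s t u : Mn) :
    p3 (fun n => L (x n)) (rvp (sym3 (red3 s) (red3 t) (red3 u))) = 0 := by
  simp only [sym3, p3_rvp_append, p3_rvp_pmul, p3_rvp_red3, h.red]
  rw [← h.r1 (s.ev x) (t.ev x) (u.ev x)]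
  noncomm_ring

end Nil3

/-! ### The group -/

/-- four values -/
def vec (a b c d : A) (n : ℕ) : A :=
  if n = 0 then a else if n = 1 then b else if n = 2 then c else if n = 3 then d else 0

/-- the exchange of `0` and `1` -/
def s1 (n : ℕ) : ℕ := if n = 0 then 1 else if n = 1 then 0 else n

/-- the exchange of `2` and `3` -/
def s2 (n : ℕ) : ℕ := if n = 2 then 3 else if n = 3 then 2 else n

/-- the exchange of `0, 1` and `2, 3` -/
def s3 (n : ℕ) : ℕ :=
  if n = 0 then 2 else if n = 1 then 3 else if n = 2 then 0 else if n = 3 then 1 else n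

theorem vec_s1 (a b c d : A) (n : ℕ) : vec a b c d (s1 n) = vec b a c d n := by
  unfold vec s1
  split_ifs <;> simp_all

theorem vec_s2 (a b c d : A) (n : ℕ) : vec a b c d (s2 n) = vec a b d c n := by
  unfold vec s2
  split_ifs <;> simp_all

theorem vec_s3 (a b c d : A) (n : ℕ) : vec a b c d (s3 n) = vec c d a b n := by
  unfold vec s3
  split_ifs <;> simp_all

/-- word and reversed word -/
def W3 (a b c d : A) (w : List ℕ) : AddMonoid.End A :=
  w3 (fun n => L (vec a b c d n)) w + w3 (fun n => L (vec a b c d n)) w.reverse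

/-- the sum over the group -/
def F3 (a b c d : A) (w : List ℕ) : AddMonoid.End A :=
  W3 a b c d w + W3 b a c d w + W3 a b d c w + W3 b a d c w +
    (W3 c d a b w + W3 d c a b w + W3 c d b a w + W3 d c b a w)

theorem w3_map (a b c d : A) (s : ℕ → ℕ) (w : List ℕ) :
    w3 (fun n => L (vec a b c d n)) (w.map s) = w3 (fun n => L (vec a b c d (s n))) w := by
  simp [w3, Function.comp_def]

theorem W3_s1 (a b c d : A) (w : List ℕ) : W3 a b c d (w.map s1) = W3 b a c d w := by
  unfold W3
  rw [← List.map_reverse, w3_map, w3_map]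
  simp only [vec_s1]

theorem W3_s2 (a b c d : A) (w : List ℕ) : W3 a b c d (w.map s2) = W3 a b d c w := by
  unfold W3
  rw [← List.map_reverse, w3_map, w3_map]
  simp only [vec_s2]

theorem W3_s3 (a b c d : A) (w : List ℕ) : W3 a b c d (w.map s3) = W3 c d a b w := by
  unfold W3
  rw [← List.map_reverse, w3_map, w3_map]
  simp only [vec_s3]

theorem F3_s1 (a b c d : A) (w : List ℕ) : F3 a b c d (w.map s1) = F3 a b c d w := by
  unfold F3
  simp only [W3_s1]
  abel

theorem F3_s2 (a b c d : A) (w : List ℕ) : F3 a b c d (w.map s2) = F3 a b c d w := by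
  unfold F3
  simp only [W3_s2]
  abel

theorem F3_s3 (a b c d : A) (w : List ℕ) : F3 a b c d (w.map s3) = F3 a b c d w := by
  unfold F3
  simp only [W3_s3]
  abel

theorem F3_rev (a b c d : A) (w : List ℕ) : F3 a b c d w.reverse = F3 a b c d w := by
  unfold F3 W3
  simp only [List.reverse_reverse]
  abel

/-! ### Codes -/

/-- decode a word in base `16` with a leading `1` -/
def dec : ℕ → ℕ → List ℕ → List ℕ
  | 0, _, w => w
  | k + 1, n, w => if Nat.ble n 1 then w else dec k (n / 16) (n % 16 :: w)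

/-- code of a word, base `16` -/
def enc (n : ℕ) : List ℕ → ℕ
  | [] => n
  | c :: w => enc (n * 16 + c) w

theorem dec_enc (w : List ℕ) : ∀ (k n : ℕ) (u : List ℕ), 1 ≤ n → (∀ c ∈ w, c < 16) →
    dec (k + w.length) (enc n w) u = dec k n (w ++ u) := by
  induction w using List.reverseRecOn with
  | nil => intro k n u _ _; rfl
  | append_singleton w c ih =>
    intro k n u hn hw
    have e1 : ∀ (w : List ℕ) (n : ℕ), enc n (w ++ [c]) = enc n w * 16 + c := by
      intro w
      induction w with
      | nil => intro n; rfl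
      | cons d w ih => intro n; exact ih _
    have e2 : ∀ (w : List ℕ) (n : ℕ), 1 ≤ n → 1 ≤ enc n w := by
      intro w
      induction w with
      | nil => intro n hn; exact hn
      | cons d w ih => intro n hn; exact ih _ (by omega)
    have hc : c < 16 := hw c (by simp)
    have h1 := e2 w n hn
    rw [e1, List.length_append, List.length_singleton, ← Nat.add_assoc, dec]
    have h2 : Nat.ble (enc n w * 16 + c) 1 = false := by
      rw [← Bool.not_eq_true, Nat.ble_eq]
      omega
    rw [h2]
    have h3 : (enc n w * 16 + c) / 16 = enc n w := by omega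
    have h4 : (enc n w * 16 + c) % 16 = c := by omega
    simp only [Bool.false_eq_true, if_false]
    rw [h3, h4, ih k n (c :: u) hn (fun d hd => hw d (by simp [hd]))]
    simp

/-- decode -/
def dc (n : ℕ) : List ℕ := dec 8 n []

/-- words of length at most `8` in the letters `0, .., 15` -/
def ok8 (w : List ℕ) : Bool := decide (w.length = 8) && w.all fun c => decide (c < 4)

theorem dc_enc {w : List ℕ} (h : ok8 w = true) : dc (enc 1 w) = w := by
  rw [ok8, Bool.and_eq_true, decide_eq_true_eq, List.all_eq_true] at h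
  have h1 := dec_enc w 0 1 [] le_rfl fun c hc => by
    have := h.2 c hc
    rw [decide_eq_true_eq] at this
    omega
  rw [h.1, Nat.zero_add] at h1
  rw [dc, h1]
  simp [dec]

theorem ok8_map {w : List ℕ} (h : ok8 w = true) {s : ℕ → ℕ} (hs : ∀ n < 4, s n < 4) :
    ok8 (w.map s) = true := by
  rw [ok8, Bool.and_eq_true, decide_eq_true_eq, List.all_eq_true] at h ⊢
  refine ⟨by rw [List.length_map]; exact h.1, fun c hc => ?_⟩
  obtain ⟨d, hd, rfl⟩ := List.mem_map.1 hc
  have := h.2 d hd
  rw [decide_eq_true_eq] at this ⊢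
  exact hs d this

theorem ok8_rev {w : List ℕ} (h : ok8 w = true) : ok8 w.reverse = true := by
  rw [ok8, Bool.and_eq_true, decide_eq_true_eq, List.all_eq_true] at h ⊢
  exact ⟨by rw [List.length_reverse]; exact h.1, fun c hc => h.2 c (List.mem_reverse.1 hc)⟩

/-- smallest code of a word and its reversal -/
def m0 (w : List ℕ) : ℕ := min (enc 1 w) (enc 1 w.reverse)

/-- smallest code with `s1` -/
def m1 (w : List ℕ) : ℕ := min (m0 w) (m0 (w.map s1))

/-- smallest code with `s1`, `s2` -/
def m2 (w : List ℕ) : ℕ := min (m1 w) (m1 (w.map s2))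

/-- smallest code in the orbit -/
def m3 (w : List ℕ) : ℕ := min (m2 w) (m2 (w.map s3))

/-- value of a code -/
def FC (a b c d : A) (n : ℕ) : AddMonoid.End A := F3 a b c d (dc n)

theorem FC_m0 (a b c d : A) {w : List ℕ} (h : ok8 w = true) :
    FC a b c d (m0 w) = F3 a b c d w := by
  unfold m0 FC
  rcases min_choice (enc 1 w) (enc 1 w.reverse) with e | e
  · rw [e, dc_enc h]
  · rw [e, dc_enc (ok8_rev h), F3_rev]

theorem FC_m1 (a b c d : A) {w : List ℕ} (h : ok8 w = true) :
    FC a b c d (m1 w) = F3 a b c d w := by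
  unfold m1
  rcases min_choice (m0 w) (m0 (w.map s1)) with e | e
  · rw [e, FC_m0 a b c d h]
  · rw [e, FC_m0 a b c d (ok8_map h (by decide)), F3_s1]

theorem FC_m2 (a b c d : A) {w : List ℕ} (h : ok8 w = true) :
    FC a b c d (m2 w) = F3 a b c d w := by
  unfold m2
  rcases min_choice (m1 w) (m1 (w.map s2)) with e | e
  · rw [e, FC_m1 a b c d h]
  · rw [e, FC_m1 a b c d (ok8_map h (by decide)), F3_s2]

theorem FC_m3 (a b c d : A) {w : List ℕ} (h : ok8 w = true) :
    FC a b c d (m3 w) = F3 a b c d w := by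
  unfold m3
  rcases min_choice (m2 w) (m2 (w.map s3)) with e | e
  · rw [e, FC_m2 a b c d h]
  · rw [e, FC_m2 a b c d (ok8_map h (by decide)), F3_s3]

/-! ### The check -/

/-- the value of a list of codes -/
def sF (a b c d : A) (p : SL) : AddMonoid.End A := (p.map fun q => q.2 • FC a b c d q.1).sum

@[simp] theorem sF_nil (a b c d : A) : sF a b c d [] = 0 := rfl

@[simp] theorem sF_cons (a b c d : A) (q : ℕ × ℤ) (p : SL) :
    sF a b c d (q :: p) = q.2 • FC a b c d q.1 + sF a b c d p := by
  simp [sF]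

theorem sF_append (a b c d : A) (p q : SL) :
    sF a b c d (p ++ q) = sF a b c d p + sF a b c d q := by
  simp [sF]

theorem sF_mrg (a b c d : A) (k : ℕ) : ∀ l m : SL,
    sF a b c d (mrg k l m) = sF a b c d l + sF a b c d m := by
  induction k with
  | zero => exact fun l m => sF_append a b c d l m
  | succ k ih =>
    intro l m
    rcases l with _ | ⟨p, l⟩
    · simp [mrg]
    rcases m with _ | ⟨q, m⟩
    · simp [mrg]
    rw [mrg]
    split_ifs with h1 h2 h3
    · rw [sF_cons, ih, sF_cons, sF_cons]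
      abel
    · rw [sF_cons, ih, sF_cons, sF_cons]
      abel
    · have e : p.1 = q.1 := by
        simp only [Nat.blt_eq] at h1 h2
        omega
      rw [ih, sF_cons, sF_cons, e]
      have h4 : p.2 • FC a b c d q.1 + q.2 • FC a b c d q.1 = 0 := by
        rw [← add_smul, h3, zero_smul]
      calc sF a b c d l + sF a b c d m =
            (p.2 • FC a b c d q.1 + q.2 • FC a b c d q.1) + (sF a b c d l + sF a b c d m) := by
            rw [h4, zero_add]
        _ = _ := by abel
    · have e : p.1 = q.1 := by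
        simp only [Nat.blt_eq] at h1 h2
        omega
      rw [sF_cons, ih, sF_cons, sF_cons]
      simp only [e]
      rw [add_smul]
      abel

/-- value of a list of lists -/
def ssF (a b c d : A) (p : List SL) : AddMonoid.End A := (p.map (sF a b c d)).sum

theorem ssF_prs (a b c d : A) (k : ℕ) (p : List SL) : ssF a b c d (prs k p) = ssF a b c d p := by
  induction p using prs.induct with
  | case1 x y l ih =>
    have h1 : ssF a b c d (prs k (x :: y :: l)) =
        sF a b c d (mrg k x y) + ssF a b c d (prs k l) := by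
      simp [prs, ssF]
    rw [h1, sF_mrg, ih]
    simp [ssF, add_assoc]
  | case2 l hl =>
    rw [prs]
    exact hl

theorem ssF_mall (a b c d : A) (k n : ℕ) : ∀ p : List SL,
    ssF a b c d (mall k n p) = ssF a b c d p := by
  induction n with
  | zero => exact fun p => rfl
  | succ n ih => exact fun p => by rw [mall, ih, ssF_prs]

/-- the terms of a polynomial -/
def trm (c : ℤ) (l r : List ℕ) : Pol → SL
  | [] => []
  | q :: p => (m3 (l ++ (q.2 ++ r)), c * q.1) :: trm c l r p

/-- all words have length `8` -/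
def pk (l r : List ℕ) (p : Pol) : Bool := p.all fun q => ok8 (l ++ (q.2 ++ r))

/-- the sum over the group for a polynomial -/
def F3p (a b c d : A) (l r : List ℕ) (p : Pol) : AddMonoid.End A :=
  (p.map fun q => q.1 • F3 a b c d (l ++ (q.2 ++ r))).sum

theorem sF_trm (a b c d : A) (e : ℤ) (l r : List ℕ) (p : Pol) (hp : pk l r p = true) :
    sF a b c d (trm e l r p) = e • F3p a b c d l r p := by
  induction p with
  | nil => simp [trm, F3p]
  | cons q p ih =>
    have hq : ok8 (l ++ (q.2 ++ r)) = true ∧ pk l r p = true := by simpa [pk] using hp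
    have h1 : F3p a b c d l r (q :: p) =
        q.1 • F3 a b c d (l ++ (q.2 ++ r)) + F3p a b c d l r p := by simp [F3p]
    rw [trm, sF_cons, ih hq.2, FC_m3 a b c d hq.1, h1, zsmul_add]
    show (e * q.1) • _ + _ = _
    rw [mul_smul]

/-- one summand of the group -/
theorem W3_sum (a b c d : A) (l r : List ℕ) (p : Pol) :
    (p.map fun q => q.1 • W3 a b c d (l ++ (q.2 ++ r))).sum =
      w3 (fun n => L (vec a b c d n)) l * p3 (fun n => L (vec a b c d n)) p *
        w3 (fun n => L (vec a b c d n)) r +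
      w3 (fun n => L (vec a b c d n)) r.reverse * p3 (fun n => L (vec a b c d n)) (rvp p) *
        w3 (fun n => L (vec a b c d n)) l.reverse := by
  induction p with
  | nil => simp [rvp]
  | cons q p ih =>
    have h2 : rvp (q :: p) = (q.1, q.2.reverse) :: rvp p := rfl
    rw [List.map_cons, List.sum_cons, ih, p3_cons, h2, p3_cons]
    unfold W3
    rw [List.reverse_append, List.reverse_append, w3_append, w3_append, w3_append, w3_append]
    simp only [mul_add, add_mul, zsmul_add, mul_smul_comm, smul_mul_assoc, mul_assoc]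
    abel

theorem F3p_eq (a b c d : A) (l r : List ℕ) (p : Pol) : F3p a b c d l r p =
    (p.map fun q => q.1 • W3 a b c d (l ++ (q.2 ++ r))).sum +
    (p.map fun q => q.1 • W3 b a c d (l ++ (q.2 ++ r))).sum +
    (p.map fun q => q.1 • W3 a b d c (l ++ (q.2 ++ r))).sum +
    (p.map fun q => q.1 • W3 b a d c (l ++ (q.2 ++ r))).sum +
    ((p.map fun q => q.1 • W3 c d a b (l ++ (q.2 ++ r))).sum +
    (p.map fun q => q.1 • W3 d c a b (l ++ (q.2 ++ r))).sum +
    (p.map fun q => q.1 • W3 c d b a (l ++ (q.2 ++ r))).sum +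
    (p.map fun q => q.1 • W3 d c b a (l ++ (q.2 ++ r))).sum) := by
  induction p with
  | nil => simp [F3p]
  | cons q p ih =>
    have h1 : F3p a b c d l r (q :: p) =
        q.1 • F3 a b c d (l ++ (q.2 ++ r)) + F3p a b c d l r p := by simp [F3p]
    rw [h1, ih]
    simp only [List.map_cons, List.sum_cons, F3, zsmul_add]
    abel

/-- an item from numbers: coefficient, left word, three monomials, right word -/
def itm (T : List Mn) (q : ℤ × ℕ × ℕ × ℕ × ℕ × ℕ) : SL :=
  trm q.1 (dec 8 q.2.1 []) (dec 8 q.2.2.2.2.2 [])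
    (sym3 (red3 (T.getD q.2.2.1 (.g 0))) (red3 (T.getD q.2.2.2.1 (.g 0)))
      (red3 (T.getD q.2.2.2.2.1 (.g 0))))

/-- the condition on the item -/
def itk (T : List Mn) (q : ℤ × ℕ × ℕ × ℕ × ℕ × ℕ) : Bool :=
  pk (dec 8 q.2.1 []) (dec 8 q.2.2.2.2.2 [])
    (sym3 (red3 (T.getD q.2.2.1 (.g 0))) (red3 (T.getD q.2.2.2.1 (.g 0)))
      (red3 (T.getD q.2.2.2.2.1 (.g 0))))

theorem itm_zero (h : Nil3 A) (a b c d : A) (T : List Mn) (q : ℤ × ℕ × ℕ × ℕ × ℕ × ℕ)
    (hq : itk T q = true) : sF a b c d (itm T q) = 0 := by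
  rw [itm, sF_trm a b c d _ _ _ _ hq, F3p_eq]
  simp only [W3_sum, h.sym, h.sym_rvp, mul_zero, zero_mul, add_zero]
  exact zsmul_zero _

/-- the check: the certificate `C` proves `N` times the orbit sum of the word `w` -/
def check3 (k n : ℕ) (T : List Mn) (C : List (ℤ × ℕ × ℕ × ℕ × ℕ × ℕ)) (N : ℤ) (w : List ℕ) :
    Bool :=
  C.all (itk T) && ok8 w &&
    (mall k n (((m3 w, -N) :: C.flatMap (itm T)).map fun q => [q])).all List.isEmpty

theorem ssF_single (a b c d : A) (p : SL) : ssF a b c d (p.map fun q => [q]) = sF a b c d p := by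
  simp [ssF, sF, Function.comp_def]

theorem check3_sound (h : Nil3 A) (a b c d : A) {k n : ℕ} {T : List Mn}
    {C : List (ℤ × ℕ × ℕ × ℕ × ℕ × ℕ)} {N : ℤ} {w : List ℕ}
    (hc : check3 k n T C N w = true) : N • F3 a b c d w = 0 := by
  unfold check3 at hc
  rw [Bool.and_eq_true, Bool.and_eq_true] at hc
  obtain ⟨⟨h1, h2⟩, h3⟩ := hc
  have e1 : sF a b c d (C.flatMap (itm T)) = 0 := by
    clear h3
    induction C with
    | nil => simp
    | cons i C ih =>
      rw [List.all_cons, Bool.and_eq_true] at h1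
      rw [List.flatMap_cons, sF_append, itm_zero h a b c d T i h1.1, ih h1.2, add_zero]
  have e3 : ∀ l : List SL, l.all List.isEmpty = true → ssF a b c d l = 0 := by
    intro l
    induction l with
    | nil => intro _; simp [ssF]
    | cons x l ih =>
      intro hl
      rw [List.all_cons, Bool.and_eq_true] at hl
      have ha : x = [] := List.isEmpty_iff.1 hl.1
      have := ih hl.2
      simp only [ssF, List.map_cons, List.sum_cons] at this ⊢
      rw [ha, sF_nil, this, add_zero]
  have e4 := e3 _ h3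
  rw [ssF_mall, ssF_single, sF_cons, e1, add_zero, FC_m3 a b c d h2] at e4
  rw [neg_smul, neg_eq_zero] at e4
  exact e4

end Pool.Agent.H.MP_e16c79_al.N4
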