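import Pool.Agent.H.MP_e16c79_al.N4.Ops

/-!
# MP_e16c79_al, index four: certificates for identities in the multiplication algebra

A polynomial in the operators `L x_i`, `L (x_i x_j)` is a list of terms. `red t` writes `L t` for a monomial `t` of the
ring as such a polynomial, by `L ((x y) t) = - (L x L t L y + L y L t L x)`.
-/

set_option autoImplicit false

namespace Pool.Agent.H.MP_e16c79_al.N4

variable {A : Type*} [NonUnitalNonAssocCommRing A]

/-- A commutative ring (not associative) without `2`- and `3`-torsion with the identities (A) and (B). -/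
structure Nil4 (A : Type*) [NonUnitalNonAssocCommRing A] : Prop where
  tf : TF A
  a : ∀ x y z t : A, (x * y) * (z * t) + (x * z) * (y * t) + (x * t) * (y * z) = 0
  b : ∀ x y z t : A, z * ((x * y) * t) + x * ((y * z) * t) + y * ((z * x) * t) = 0

theorem nil4_of [IsCommJordan A] (hT : TF A) (h4 : ∀ a : A, a * (a * (a * a)) = 0) : Nil4 A :=
  ⟨hT, idA hT h4, idB hT h4⟩

namespace Nil4

variable (h : Nil4 A)
include h

theorem r1 (x y z : A) : L (x * y) * L z + L (y * z) * L x + L (z * x) * L y = 0 := by
  ext t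
  have h1 := h.a x y z t
  show (x * y) * (z * t) + (y * z) * (x * t) + (z * x) * (y * t) = 0
  rw [← h1, mul_comm (y * z) (x * t), mul_comm z x]
  abel

theorem r2 (x y z : A) : L z * L (x * y) + L x * L (y * z) + L y * L (z * x) = 0 := by
  ext t
  exact h.b x y z t

theorem r3 (x y t : A) : L ((x * y) * t) = -(L x * L t * L y + L y * L t * L x) := by
  ext z
  have h1 := h.b x y z t
  show (x * y) * t * z = -(x * (t * (y * z)) + y * (t * (x * z)))
  rw [eq_neg_iff_add_eq_zero, ← h1, mul_comm (y * z) t, mul_comm (z * x) t, mul_comm z x,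
    mul_comm (x * y * t) z]
  abel

end Nil4

/-! ### Terms -/

/-- Monomials of the free commutative magma. -/
inductive Mn : Type
  | g (n : ℕ)
  | m (s t : Mn)

namespace Mn

/-- value -/
def ev (x : ℕ → A) : Mn → A
  | g n => x n
  | m s t => s.ev x * t.ev x

end Mn

/-- polynomials: coefficients and words; letter `n < 16` is `L x_n`, letter `16 (i + 1) + j` is `L (x_i x_j)` -/
abbrev Pol := List (ℤ × List ℕ)

/-- value of a letter -/
def lv (x : ℕ → A) (c : ℕ) : AddMonoid.End A :=
  if c < 16 then L (x c) else L (x (c / 16 - 1) * x (c % 16))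

/-- value of a word -/
def wv (x : ℕ → A) (w : List ℕ) : AddMonoid.End A := (w.map (lv x)).prod

/-- value of a polynomial -/
def pv (x : ℕ → A) (p : Pol) : AddMonoid.End A := (p.map fun q => q.1 • wv x q.2).sum

theorem wv_append (x : ℕ → A) (u w : List ℕ) : wv x (u ++ w) = wv x u * wv x w := by
  simp [wv]

@[simp] theorem pv_nil (x : ℕ → A) : pv x [] = 0 := rfl

@[simp] theorem pv_cons (x : ℕ → A) (q : ℤ × List ℕ) (p : Pol) :
    pv x (q :: p) = q.1 • wv x q.2 + pv x p := by
  simp [pv]

theorem pv_append (x : ℕ → A) (p q : Pol) : pv x (p ++ q) = pv x p + pv x q := by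
  simp [pv]

/-- multiplication of a polynomial by a term on the left -/
def tmul (c : ℤ) (w : List ℕ) (p : Pol) : Pol := p.map fun q => (c * q.1, w ++ q.2)

theorem pv_tmul (x : ℕ → A) (c : ℤ) (w : List ℕ) (p : Pol) :
    pv x (tmul c w p) = c • (wv x w * pv x p) := by
  induction p with
  | nil => simp [tmul]
  | cons q p ih =>
    have h1 : tmul c w (q :: p) = (c * q.1, w ++ q.2) :: tmul c w p := rfl
    rw [h1, pv_cons, pv_cons, ih, wv_append, mul_add, zsmul_add, mul_smul_comm]
    show (c * q.1) • _ + _ = _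
    rw [mul_smul]

/-- product -/
def pmul (p q : Pol) : Pol := p.flatMap fun r => tmul r.1 r.2 q

theorem pv_pmul (x : ℕ → A) (p q : Pol) : pv x (pmul p q) = pv x p * pv x q := by
  induction p with
  | nil => simp [pmul]
  | cons r p ih =>
    have h1 : pmul (r :: p) q = tmul r.1 r.2 q ++ pmul p q := rfl
    rw [h1, pv_append, pv_tmul, ih, pv_cons, add_mul, smul_mul_assoc]

/-- scalar multiple -/
def psmul (c : ℤ) (p : Pol) : Pol := tmul c [] p

theorem pv_psmul (x : ℕ → A) (c : ℤ) (p : Pol) : pv x (psmul c p) = c • pv x p := by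
  rw [psmul, pv_tmul]
  simp [wv]

/-- letter of a product of two generators -/
def pr (i j : ℕ) : ℕ := if i ≤ j then 16 * (i + 1) + j else 16 * (j + 1) + i

theorem lv_pr (x : ℕ → A) {i j : ℕ} (hi : i < 16) (hj : j < 16) : lv x (pr i j) = L (x i * x j) := by
  unfold pr lv
  by_cases hij : i ≤ j
  · rw [if_pos hij, if_neg (by omega)]
    have e1 : (16 * (i + 1) + j) / 16 - 1 = i := by omega
    have e2 : (16 * (i + 1) + j) % 16 = j := by omega
    rw [e1, e2]
  · rw [if_neg hij, if_neg (by omega)]
    have e1 : (16 * (j + 1) + i) / 16 - 1 = j := by omega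
    have e2 : (16 * (j + 1) + i) % 16 = i := by omega
    rw [e1, e2, mul_comm]

/-- the operator of a monomial -/
def red : Mn → Pol
  | .g n => [(1, [n])]
  | .m (.g i) (.g j) => [(1, [pr i j])]
  | .m (.m s t) u =>
    psmul (-1) (pmul (red s) (pmul (red u) (red t)) ++ pmul (red t) (pmul (red u) (red s)))
  | .m (.g i) (.m s t) =>
    psmul (-1) (pmul (red s) (pmul [(1, [i])] (red t)) ++ pmul (red t) (pmul [(1, [i])] (red s)))

/-- all generators have indices less than `16` -/
def Mn.ok : Mn → Bool
  | .g n => n < 16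
  | .m s t => s.ok && t.ok

theorem red_sound (h : Nil4 A) (x : ℕ → A) (t : Mn) (ht : t.ok = true) :
    pv x (red t) = L (t.ev x) := by
  induction t using red.induct with
  | case1 n =>
    have hn : n < 16 := by simpa [Mn.ok] using ht
    simp [red, wv, lv, hn, Mn.ev]
  | case2 i j =>
    have hij : i < 16 ∧ j < 16 := by simpa [Mn.ok] using ht
    simp only [red, pv_cons, pv_nil, wv, List.map_cons, List.map_nil, List.prod_cons,
      List.prod_nil, mul_one, one_smul, add_zero]
    rw [lv_pr x hij.1 hij.2]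
    rfl
  | case3 s t u ihs ihu iht =>
    have hs : (s.ok = true ∧ t.ok = true) ∧ u.ok = true := by simpa [Mn.ok] using ht
    rw [red, pv_psmul, pv_append, pv_pmul, pv_pmul, pv_pmul, pv_pmul, ihs hs.1.1, ihu hs.2,
      iht hs.1.2]
    show _ = L ((s.ev x * t.ev x) * u.ev x)
    rw [h.r3, neg_one_zsmul, mul_assoc, mul_assoc]
  | case4 i s t ihs iht =>
    have hs : i < 16 ∧ s.ok = true ∧ t.ok = true := by simpa [Mn.ok] using ht
    have hi : pv x [(1, [i])] = L (x i) := by simp [wv, lv, hs.1]
    rw [red, pv_psmul, pv_append, pv_pmul, pv_pmul, pv_pmul, pv_pmul, ihs hs.2.1,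
      iht hs.2.2, hi]
    show _ = L (x i * (s.ev x * t.ev x))
    rw [mul_comm (x i), h.r3, neg_one_zsmul, mul_assoc, mul_assoc]

end Pool.Agent.H.MP_e16c79_al.N4
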