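import Pool.Agent.H.MP_e16c79_al.N4.Cert3

/-!
Certificate in degree eight for nil index three: the operators of the products `(a² b²) (c² d²)` vanish.
-/

set_option autoImplicit false
set_option maxRecDepth 100000

namespace Pool.Agent.H.MP_e16c79_al.N4

/-- monomials -/
def T3 : List Mn :=
  [.g 0,
    .g 1,
    .g 2,
    .g 3,
    .m (.g 2) (.g 2),
    .m (.g 0) (.g 1),
    .m (.g 0) (.g 0),
    .m (.g 0) (.g 3),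
    .m (.g 1) (.g 1),
    .m (.g 1) (.g 3),
    .m (.g 1) (.g 2),
    .m (.g 0) (.g 2),
    .m (.g 2) (.g 3),
    .m (.g 3) (.g 3),
    .m (.g 2) (.m (.g 0) (.g 3)),
    .m (.g 0) (.m (.g 1) (.g 3)),
    .m (.g 1) (.m (.g 0) (.g 2)),
    .m (.g 3) (.m (.g 2) (.g 3)),
    .m (.g 1) (.m (.g 2) (.g 2)),
    .m (.g 3) (.m (.g 3) (.m (.g 0) (.g 1))),
    .m (.g 1) (.m (.g 3) (.m (.g 0) (.g 2))),
    .m (.g 1) (.m (.g 0) (.m (.g 0) (.g 1))),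
    .m (.g 2) (.m (.g 2) (.m (.g 1) (.g 3)))]

/-- certificate, part 0 -/
def C3_0 : List (ℤ × ℕ × ℕ × ℕ × ℕ × ℕ) :=
  [
    (-5, 16, 0, 1, 1, 74291), (7, 4131, 0, 1, 1, 306), (48, 4354, 0, 1, 3, 291),
    (11, 4400, 0, 2, 2, 275), (142, 16, 0, 2, 3, 78353), (-64, 4609, 0, 2, 3, 275),
    (-27, 306, 0, 0, 2, 4371), (-63, 73763, 0, 1, 1, 19), (-58, 69666, 0, 1, 3, 19),
    (-148, 65827, 0, 2, 3, 17), (-4, 4896, 1, 1, 2, 259), (-19, 306, 1, 1, 3, 4128),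
    (-15, 78113, 0, 0, 2, 19), (27, 19, 0, 0, 2, 78113), (20, 1, 0, 1, 2, 1257730),
    (-26, 18, 1, 1, 2, 65587), (63, 307, 1, 1, 2, 4128), (31, 1245218, 1, 1, 3, 1),
    (17, 258, 0, 3, 3, 4625), (110, 19, 1, 1, 2, 78336), (-25, 1, 1, 1, 3, 1060898),
    (113, 18, 0, 0, 1, 78130), (12, 1122835, 0, 0, 3, 1), (-114, 77874, 0, 1, 2, 17),
    (-32, 1249538, 0, 2, 3, 1), (75, 19, 0, 1, 1, 74528), (58, 1127170, 0, 1, 2, 1),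
    (-2, 1, 1, 2, 2, 1061123), (79, 306, 0, 0, 1, 4882), (-44, 307, 0, 2, 2, 4353),
    (-18, 1, 0, 0, 1, 1192497), (-18, 18, 0, 1, 3, 78082), (-74, 1, 1, 1, 3, 1192448),
    (-24, 1253408, 1, 1, 3, 1), (52, 1245712, 1, 2, 3, 1), (34, 19, 1, 1, 3, 74240),
    (29, 1052979, 0, 2, 2, 1), (-45, 66321, 0, 2, 2, 19), (68, 4128, 1, 2, 3, 275),
    (-66, 1, 1, 2, 3, 1253392), (-40, 1, 0, 0, 1, 1192467), (-7, 1, 1, 1, 3, 1057328),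
    (86, 18, 1, 2, 3, 70400), (63, 17, 0, 0, 2, 78130), (-116, 17, 0, 0, 3, 78354),
    (46, 18, 0, 1, 3, 66067), (14, 4400, 0, 2, 2, 305), (41, 16, 1, 1, 3, 66338),
    (134, 307, 1, 2, 2, 4352), (-42, 19, 0, 1, 2, 78337), (-34, 70163, 0, 2, 3, 16),
    (-59, 18, 0, 3, 3, 66065), (45, 4352, 2, 3, 3, 274), (56, 16, 2, 2, 3, 69681),
    (-214, 1257730, 0, 1, 2, 1), (12, 275, 0, 2, 3, 4354), (8, 4146, 1, 1, 2, 259),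
    (30, 78338, 0, 1, 3, 17), (216, 4097, 1, 2, 3, 291), (7, 1, 0, 2, 2, 1126659),
    (-86, 1179923, 0, 2, 3, 1), (44, 257, 0, 3, 3, 4641), (90, 4114, 2, 3, 3, 257),
    (9, 70450, 0, 0, 1, 18), (-96, 304, 0, 2, 3, 4625), (7, 4128, 1, 1, 3, 306),
    (-38, 78336, 1, 1, 3, 18), (-3, 1053441, 2, 2, 3, 1), (-45, 65794, 2, 3, 3, 17),
    (-6, 4371, 0, 0, 3, 290), (26, 1114912, 1, 2, 3, 1), (-26, 291, 0, 1, 1, 4146),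
    (62, 290, 0, 1, 3, 4400), (-4, 259, 1, 1, 2, 4131), (106, 4912, 1, 2, 2, 272),
    (-194, 1179907, 1, 2, 3, 1), (3, 274, 1, 3, 3, 4128), (20, 1250082, 0, 0, 1, 1),
    (-56, 1, 0, 0, 3, 1123090), (188, 1250080, 0, 1, 2, 1), (54, 66322, 0, 1, 3, 18),
    (-64, 1057568, 1, 1, 3, 1), (-50, 1061168, 1, 2, 2, 1), (18, 78113, 0, 0, 3, 18),
    (-16, 4115, 0, 2, 2, 275), (18, 73985, 0, 2, 3, 19), (-42, 289, 1, 3, 3, 4098),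
    (-20, 305, 0, 1, 2, 4131), (-21, 1, 1, 1, 2, 1049379), (-6, 1254162, 0, 0, 1, 1),
    (8, 1048881, 2, 2, 3, 1), (34, 69634, 1, 2, 3, 19), (73, 1122306, 1, 3, 3, 1),
    (47, 78080, 2, 2, 3, 17), (-24, 4401, 0, 2, 3, 288), (24, 1057554, 0, 1, 3, 1),
    (-105, 4898, 1, 1, 3, 256), (19, 4387, 0, 0, 2, 275), (-100, 1253409, 0, 1, 3, 1),
    (-54, 1, 1, 3, 3, 1114656)]

/-- certificate, part 1 -/
def C3_1 : List (ℤ × ℕ × ℕ × ℕ × ℕ × ℕ) :=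
  [
    (11, 65585, 2, 2, 3, 17), (-78, 1, 0, 2, 2, 1118259), (-60, 1, 1, 2, 2, 1257728),
    (-44, 275, 0, 1, 2, 4611), (33, 259, 2, 2, 3, 4113), (24, 16, 1, 2, 3, 78352),
    (48, 4899, 0, 1, 1, 288), (174, 291, 0, 1, 2, 4115), (-37, 1126704, 0, 2, 2, 1),
    (-30, 4130, 1, 1, 3, 259), (36, 1192224, 0, 1, 3, 1), (40, 4641, 0, 1, 3, 259),
    (-16, 275, 0, 2, 3, 4129), (-12, 1, 0, 0, 3, 1249570), (-14, 69651, 0, 2, 2, 19),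
    (1, 289, 0, 3, 3, 4114), (25, 291, 0, 0, 1, 4657), (15, 1, 0, 0, 3, 1184275),
    (92, 1249840, 0, 1, 2, 1), (32, 289, 0, 2, 3, 4865), (28, 1, 0, 1, 3, 1192449),
    (-40, 275, 0, 2, 3, 4624), (-32, 289, 0, 2, 3, 4400), (92, 17, 0, 1, 3, 74498),
    (140, 1184560, 0, 1, 2, 1), (-28, 4656, 1, 2, 3, 272), (-73, 1245219, 1, 1, 2, 1),
    (-22, 18, 0, 1, 3, 66337), (24, 66337, 0, 2, 3, 17), (14, 273, 0, 0, 4, 307),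
    (-78, 290, 0, 3, 5, 305), (3, 1, 2, 3, 6, 74513), (130, 17, 0, 1, 7, 4898),
    (4, 66083, 1, 3, 5, 1), (42, 1, 0, 2, 8, 77874), (-18, 19, 0, 2, 9, 4624),
    (-14, 66051, 1, 3, 10, 1), (-41, 4130, 3, 3, 5, 17), (-4, 4353, 3, 3, 11, 18),
    (27, 74019, 0, 0, 9, 1), (-23, 4401, 0, 0, 12, 18), (22, 73777, 0, 2, 9, 1),
    (46, 17, 2, 3, 7, 4624), (12, 288, 0, 3, 10, 305), (24, 66321, 2, 2, 7, 1),
    (20, 73777, 0, 1, 12, 1), (-44, 275, 0, 3, 10, 288), (44, 70401, 2, 3, 11, 1),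
    (-36, 73744, 2, 3, 9, 1), (4, 66097, 0, 1, 12, 1), (1, 4128, 1, 1, 13, 18),
    (40, 4400, 2, 3, 10, 16), (20, 66097, 0, 3, 10, 1), (-22, 78113, 0, 0, 12, 1),
    (-12, 4627, 0, 1, 7, 18), (-26, 19, 1, 2, 6, 4387), (-20, 288, 0, 1, 12, 275),
    (-22, 259, 1, 3, 10, 288), (-5, 290, 0, 0, 8, 307), (-6, 1, 0, 3, 12, 73985),
    (5, 272, 3, 3, 4, 272), (-8, 306, 0, 1, 14, 17), (-12, 4625, 0, 3, 14, 1),
    (16, 1, 1, 2, 15, 4131), (12, 18, 1, 7, 10, 259), (-6, 1, 2, 3, 16, 4880),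
    (-2, 17, 0, 1, 17, 258), (12, 4912, 0, 1, 18, 1), (-6, 1, 0, 1, 19, 290),
    (-6, 288, 1, 3, 20, 1), (6, 18, 2, 3, 21, 19), (12, 1, 0, 15, 22, 1)]

/-- certificate -/
def C3 : List (ℤ × ℕ × ℕ × ℕ × ℕ × ℕ) :=
  C3_0 ++ (C3_1)

theorem chk3 : check3 1000 12 T3 C3 72 [0, 0, 1, 1, 2, 2, 3, 3] = true := by
  decide +kernel

end Pool.Agent.H.MP_e16c79_al.N4
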