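import Mathlib

/-!
# MP_e16c79_al, index four: the Nagata-Higman argument for index three, with levels
-/

set_option autoImplicit false

namespace Pool.Agent.H.MP_e16c79_al.N4

/-- The data: `N` is closed under multiplication from the left, and from the right by elements of the levels; products
of elements of one level are in the preceding level; cubes of elements of level `0` are in `N`. -/
structure Lvl {R : Type*} [Ring R] (N : AddSubgroup R) (E : ℕ → AddSubgroup R) : Prop where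
  two : ∀ w, (2 : ℤ) • w ∈ N → w ∈ N
  three : ∀ w, (3 : ℤ) • w ∈ N → w ∈ N
  left : ∀ r, ∀ w ∈ N, r * w ∈ N
  right : ∀ w ∈ N, ∀ e ∈ E 0, w * e ∈ N
  anti : ∀ m, E (m + 1) ≤ E m
  mul : ∀ m, ∀ a ∈ E (m + 1), ∀ b ∈ E (m + 1), a * b ∈ E m
  cube : ∀ e ∈ E 0, e * e * e ∈ N

namespace Lvl

variable {R : Type*} [Ring R] {N : AddSubgroup R} {E : ℕ → AddSubgroup R} (h : Lvl N E)
include h

theorem f_mem {x z : R} (hx : x ∈ E 0) (hz : z ∈ E 0) :
    x * x * z + x * z * x + z * x * x ∈ N := by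
  refine h.two _ ?_
  have h1 := h.cube _ ((E 0).add_mem hx hz)
  have h2 := h.cube _ ((E 0).sub_mem hx hz)
  have h3 := h.cube _ hz
  have e : (2 : ℤ) • (x * x * z + x * z * x + z * x * x) =
      (x + z) * (x + z) * (x + z) - (x - z) * (x - z) * (x - z) - (2 : ℤ) • (z * z * z) := by
    noncomm_ring
  rw [e]
  exact N.sub_mem (N.sub_mem h1 h2) (N.zsmul_mem h3 2)

theorem le0 (m : ℕ) : E m ≤ E 0 := by
  induction m with
  | zero => exact le_rfl
  | succ m ih => exact (h.anti m).trans ih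

theorem sq_mem {x z y : R} (hx : x ∈ E 2) (hz : z ∈ E 2) (hy : y ∈ E 2) :
    x * x * z * (y * y) ∈ N := by
  have hx0 := h.le0 2 hx
  have hy0 := h.le0 2 hy
  have hz0 := h.le0 2 hz
  have hx1 := h.anti 1 hx
  have hy1 := h.anti 1 hy
  have hzy1 : z * y ∈ E 1 := h.mul 1 z hz y hy
  have hzy0 : z * y ∈ E 0 := h.le0 1 hzy1
  have hzyy : z * y * y ∈ E 0 := h.mul 0 _ hzy1 _ hy1
  have hyy : y * y ∈ E 0 := h.mul 0 _ hy1 _ hy1
  have hxx : x * x ∈ E 0 := h.mul 0 _ hx1 _ hx1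
  have s0 := h.right _ (h.f_mem hx0 hz0) _ hyy
  have s1 := h.right _ (h.f_mem hx0 hzy0) _ hy0
  have s2 := h.f_mem hx0 hzyy
  have t1 := h.left (x * z) _ (h.f_mem hy0 hx0)
  have t2 := h.left z _ (h.f_mem hy0 hxx)
  refine h.three _ ?_
  have e : (3 : ℤ) • (x * x * z * (y * y)) =
      (x * x * z + x * z * x + z * x * x) * (y * y) +
      (x * x * (z * y) + x * (z * y) * x + z * y * x * x) * y +
      (x * x * (z * y * y) + x * (z * y * y) * x + z * y * y * x * x) -
      x * z * (y * y * x + y * x * y + x * y * y) -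
      z * (y * y * (x * x) + y * (x * x) * y + x * x * y * y) := by
    noncomm_ring
  rw [e]
  exact N.sub_mem (N.sub_mem (N.add_mem (N.add_mem s0 s1) s2) t1) t2

theorem o_mem {a b z c d : R} (ha : a ∈ E 2) (hb : b ∈ E 2) (hz : z ∈ E 2) (hc : c ∈ E 2)
    (hd : d ∈ E 2) : (a * b + b * a) * z * (c * d + d * c) ∈ N := by
  have h1 : ∀ x ∈ E 2, x * x * z * (c * d + d * c) ∈ N := by
    intro x hx
    have e : x * x * z * (c * d + d * c) =
        x * x * z * ((c + d) * (c + d)) - x * x * z * (c * c) - x * x * z * (d * d) := by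
      noncomm_ring
    rw [e]
    exact N.sub_mem (N.sub_mem (h.sq_mem hx hz ((E 2).add_mem hc hd)) (h.sq_mem hx hz hc))
      (h.sq_mem hx hz hd)
  have e : (a * b + b * a) * z * (c * d + d * c) =
      (a + b) * (a + b) * z * (c * d + d * c) - a * a * z * (c * d + d * c) -
        b * b * z * (c * d + d * c) := by
    noncomm_ring
  rw [e]
  exact N.sub_mem (N.sub_mem (h1 _ ((E 2).add_mem ha hb)) (h1 _ ha)) (h1 _ hb)

/-- THE NAGATA-HIGMAN ARGUMENT: seven factors. -/
theorem seven {a b c d e f g : R} (ha : a ∈ E 4) (hb : b ∈ E 4) (hc : c ∈ E 4) (hd : d ∈ E 4)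
    (he : e ∈ E 4) (hf : f ∈ E 4) (hg : g ∈ E 4) :
    a * b * c * d * e * f * g ∈ N := by
  have m3 : ∀ {u v : R}, u ∈ E 4 → v ∈ E 4 → u * v ∈ E 3 := fun hu hv => h.mul 3 _ hu _ hv
  have l3 : ∀ {u : R}, u ∈ E 4 → u ∈ E 3 := fun hu => h.anti 3 hu
  have l2 : ∀ {u : R}, u ∈ E 3 → u ∈ E 2 := fun hu => h.anti 2 hu
  have m2 : ∀ {u v : R}, u ∈ E 3 → v ∈ E 3 → u * v ∈ E 2 := fun hu hv => h.mul 2 _ hu _ hv
  have l0 : ∀ {u : R}, u ∈ E 4 → u ∈ E 0 := fun hu => h.le0 4 hu
  have a2 := l2 (l3 ha)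
  have b2 := l2 (l3 hb)
  have c2 := l2 (l3 hc)
  have d2 := l2 (l3 hd)
  have e2 := l2 (l3 he)
  have f2 := l2 (l3 hf)
  have g2 := l2 (l3 hg)
  have bc := l2 (m3 hb hc)
  have fg := l2 (m3 hf hg)
  have cd := l2 (m3 hc hd)
  have df := l2 (m3 hd hf)
  have cdf : c * d * f ∈ E 2 := m2 (m3 hc hd) (l3 hf)
  -- the nine products
  have p11 := h.right _ (h.o_mem a2 b2 cd e2 f2) _ (l0 hg)
  have p12 := h.o_mem a2 b2 cdf e2 g2
  have p13 := h.o_mem a2 b2 cd e2 fg
  have p21 := h.left b _ (h.right _ (h.o_mem a2 c2 d2 e2 f2) _ (l0 hg))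
  have p22 := h.left b _ (h.o_mem a2 c2 df e2 g2)
  have p23 := h.left b _ (h.o_mem a2 c2 d2 e2 fg)
  have p31 := h.right _ (h.o_mem a2 bc d2 e2 f2) _ (l0 hg)
  have p32 := h.o_mem a2 bc df e2 g2
  have p33 := h.o_mem a2 bc d2 e2 fg
  refine h.two _ (h.two _ ?_)
  have k1 : (2 : ℤ) • (a * b * c) =
      (a * b + b * a) * c - b * (a * c + c * a) + (a * (b * c) + b * c * a) := by
    noncomm_ring
  have k2 : (2 : ℤ) • (e * f * g) =
      (e * f + f * e) * g - f * (e * g + g * e) + (e * (f * g) + f * g * e) := by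
    noncomm_ring
  have k3 : (2 : ℤ) • ((2 : ℤ) • (a * b * c * d * e * f * g)) =
      ((2 : ℤ) • (a * b * c)) * d * ((2 : ℤ) • (e * f * g)) := by
    noncomm_ring
  rw [k3, k1, k2]
  have k4 : ((a * b + b * a) * c - b * (a * c + c * a) + (a * (b * c) + b * c * a)) * d *
      ((e * f + f * e) * g - f * (e * g + g * e) + (e * (f * g) + f * g * e)) =
      (a * b + b * a) * (c * d) * (e * f + f * e) * g -
      (a * b + b * a) * (c * d * f) * (e * g + g * e) +
      (a * b + b * a) * (c * d) * (e * (f * g) + f * g * e) -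
      b * ((a * c + c * a) * d * (e * f + f * e) * g) +
      b * ((a * c + c * a) * (d * f) * (e * g + g * e)) -
      b * ((a * c + c * a) * d * (e * (f * g) + f * g * e)) +
      (a * (b * c) + b * c * a) * d * (e * f + f * e) * g -
      (a * (b * c) + b * c * a) * (d * f) * (e * g + g * e) +
      (a * (b * c) + b * c * a) * d * (e * (f * g) + f * g * e) := by
    noncomm_ring
  rw [k4]
  exact N.add_mem (N.sub_mem (N.add_mem (N.sub_mem (N.add_mem (N.sub_mem (N.add_mem (N.sub_mem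
    p11 p12) p13) p21) p22) p23) p31) p32) p33

end Lvl

end Pool.Agent.H.MP_e16c79_al.N4
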