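import Pool.Agent.H.MP_e16c79_al.N4.Rev
import Pool.Agent.H.MP_e16c79_al.N4.NH

/-!
# MP_e16c79_al, index four: solvability from the containment `V2 V2 ⊆ V2`
-/

set_option autoImplicit false

namespace Pool.Agent.H.MP_e16c79_al.N4

open MulOpposite

variable {A : Type*} [NonUnitalNonAssocCommRing A]

/-- STEP 3 (proved by a certificate): products of four operators are in the span of products of two. -/
def Step3 (A : Type*) [NonUnitalNonAssocCommRing A] : Prop :=
  ∀ S : AddSubgroup A, sq S ≤ S → ∀ x ∈ sq (sq S), ∀ y ∈ sq S, ∀ z ∈ sq S, ∀ t ∈ sq S,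
    L2 x * L2 y * (L2 z * L2 t) ∈ V S

/-- the derived ring -/
abbrev D (A : Type*) [NonUnitalNonAssocCommRing A] (m : ℕ) : AddSubgroup A := sq^[m] ⊤

theorem D_succ (m : ℕ) : D A (m + 1) = sq (D A m) := Function.iterate_succ_apply' sq m ⊤

theorem D_anti (m : ℕ) : D A (m + 1) ≤ D A m := by
  rw [D_succ]
  exact iter_le m

theorem D_le {m n : ℕ} (h : m ≤ n) : D A n ≤ D A m := antitone_nat_of_succ_le D_anti h

theorem mul_V (h3 : Step3 A) (m : ℕ) {v w : RR A} (hv : v ∈ V (D A (m + 2)))
    (hw : w ∈ V (D A (m + 2))) : v * w ∈ V (D A m) := by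
  refine V_mul_mem ?_ hv hw
  intro x hx y hy z hz t ht
  have e2 : D A (m + 2) = sq (sq (D A m)) := by rw [D_succ, D_succ]
  have e1 : D A (m + 2) ≤ sq (D A m) := by
    rw [← D_succ]
    exact D_anti (m + 1)
  exact h3 (D A m) (iter_le m) x (e2 ▸ hx) y (e1 hy) z (e1 hz) t (e1 ht)

/-- the operators which annihilate from the left -/
def NN (A : Type*) [NonUnitalNonAssocCommRing A] : AddSubgroup (RR A) where
  carrier := {w | ∀ t : A, w.1 * L t = 0}
  zero_mem' := fun t => by
    show (0 : AddMonoid.End A) * L t = 0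
    exact zero_mul _
  add_mem' := by
    intro a b ha hb t
    show (a.1 + b.1) * L t = 0
    rw [add_mul, ha t, hb t, add_zero]
  neg_mem' := by
    intro a ha t
    show (-a.1) * L t = 0
    rw [neg_mul, ha t, neg_zero]

theorem lvl (h : Nil4 A) (h3 : Step3 A) :
    Lvl (NN A) (fun m => V (D A (4 + 2 * m))) where
  two := by
    intro w hw t
    refine h.tf.end_two ?_
    have h1 : ((2 : ℤ) • w).1 * L t = 0 := hw t
    rw [← smul_mul_assoc]
    exact h1
  three := by
    intro w hw t
    refine h.tf.end_three ?_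
    have h1 : ((3 : ℤ) • w).1 * L t = 0 := hw t
    rw [← smul_mul_assoc]
    exact h1
  left := by
    intro r w hw t
    show r.1 * w.1 * L t = 0
    rw [mul_assoc, hw t, mul_zero]
  right := by
    intro w hw e he t
    show w.1 * e.1 * L t = 0
    have h1 : V2 (D A (4 + 2 * 0)) ≤
        ((AddMonoidHom.mulLeft w.1).comp (AddMonoidHom.fst (AddMonoid.End A)
          (AddMonoid.End A)ᵐᵒᵖ)).ker := by
      refine (AddSubgroup.closure_le _).2 ?_
      rintro u ⟨x, -, y, -, rfl⟩
      show w.1 * (L x * L y) = 0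
      rw [← mul_assoc, hw x, zero_mul]
    obtain ⟨k, hk⟩ := he
    have h2 : w.1 * ((6 : ℤ) ^ k • e.1) = 0 := h1 hk
    rw [mul_smul_comm] at h2
    rw [h.tf.six_pow k h2, zero_mul]
  anti := fun m => V_mono (D_le (by omega))
  mul := by
    intro m a ha b hb
    have e : 4 + 2 * (m + 1) = (4 + 2 * m) + 2 := by ring
    simp only [e] at ha hb
    exact mul_V h3 _ ha hb
  cube := by
    intro e he t
    have h4 : e ∈ V (D A (2 + 2)) := he
    have h5 : e * e ∈ V (D A 2) := mul_V h3 2 h4 h4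
    have h6 : e * e ∈ V (D A (0 + 2)) := h5
    have h7 : e ∈ V (D A (0 + 2)) := V_mono (D_le (by omega)) h4
    have h8 : e * e * e ∈ V (D A 0) := mul_V h3 0 h6 h7
    have p1 : Pr e.1 (unop e.2) := Pr_of_V h h4
    have p2 : Pr (e.1 * e.1) (unop e.2 * unop e.2) := Pr_of_V h h5
    have p3 : Pr (e.1 * e.1 * e.1) (unop e.2 * unop e.2 * unop e.2) := by
      have := Pr_of_V h h8
      have e1 : unop (e * e * e).2 = unop e.2 * unop e.2 * unop e.2 := by
        show unop (e.2 * e.2 * e.2) = _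
        rw [unop_mul, unop_mul, mul_assoc]
      rw [e1] at this
      exact this
    exact cube_zero h.tf p1 p2 p3 t

/-- words -/
def Wd (S : AddSubgroup A) : ℕ → AddSubgroup A
  | 0 => S
  | n + 1 => AddSubgroup.closure {x | ∃ a ∈ S, ∃ b ∈ Wd S n, x = a * b}

theorem sq_le_Wd {S : AddSubgroup A} (hS : sq S ≤ S) (n : ℕ) : sq^[n] S ≤ Wd S n := by
  have h1 : ∀ n, sq^[n] S ≤ S := by
    intro n
    induction n with
    | zero => exact le_rfl
    | succ n ih =>
      rw [Function.iterate_succ_apply']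
      exact (sq_mono ih).trans hS
  induction n with
  | zero => exact le_rfl
  | succ n ih =>
    rw [Function.iterate_succ_apply']
    refine AddSubgroup.closure_mono ?_
    rintro x ⟨a, ha, b, hb, rfl⟩
    exact ⟨a, h1 n ha, b, ih hb, rfl⟩

theorem Wd_zero {S : AddSubgroup A} (n : ℕ) : ∀ f : AddMonoid.End A,
    (∀ l : List A, l.length = n → (∀ x ∈ l, x ∈ S) → f * (l.map L).prod = 0) →
      ∀ w ∈ Wd S n, f w = 0 := by
  induction n with
  | zero =>
    intro f hf w _
    have h1 := hf [] rfl (by simp)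
    rw [List.map_nil, List.prod_nil, mul_one] at h1
    rw [h1]
    rfl
  | succ n ih =>
    intro f hf w hw
    have h1 : Wd S (n + 1) ≤ (f : A →+ A).ker := by
      refine (AddSubgroup.closure_le _).2 ?_
      rintro x ⟨a, ha, b, hb, rfl⟩
      show f (a * b) = 0
      refine ih (f * L a) ?_ b hb
      intro l hl hl'
      have h2 := hf (a :: l) (by rw [List.length_cons, hl]) (by
        intro x hx
        rcases List.mem_cons.1 hx with rfl | hx
        · exact ha
        · exact hl' x hx)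
      rw [List.map_cons, List.prod_cons, ← mul_assoc] at h2
      exact h2
    exact h1 hw

/-- SOLVABILITY from Step 3. -/
theorem solv_of_step3 (h : Nil4 A) (h3 : Step3 A) : sq^[27] (⊤ : AddSubgroup A) = ⊥ := by
  have hl := lvl h h3
  set S : AddSubgroup A := D A 12 with hS
  have hSS : sq S ≤ S := iter_le 12
  have h14 : ∀ l : List A, l.length = 15 → (∀ x ∈ l, x ∈ S) → (1 : AddMonoid.End A) * (l.map L).prod = 0 := by
    intro l hlen hmem
    obtain ⟨x1, x2, x3, x4, x5, x6, x7, x8, x9, x10, x11, x12, x13, x14, t, rfl⟩ :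
        ∃ x1 x2 x3 x4 x5 x6 x7 x8 x9 x10 x11 x12 x13 x14 t : A,
          l = [x1, x2, x3, x4, x5, x6, x7, x8, x9, x10, x11, x12, x13, x14, t] := by
      match l, hlen with
      | [x1, x2, x3, x4, x5, x6, x7, x8, x9, x10, x11, x12, x13, x14, t], _ =>
        exact ⟨x1, x2, x3, x4, x5, x6, x7, x8, x9, x10, x11, x12, x13, x14, t, rfl⟩
    have m : ∀ x y : A, x ∈ S → y ∈ S → L2 x * L2 y ∈ V (D A (4 + 2 * 4)) :=
      fun x y hx hy => mem_V hx hy
    have h7 := hl.seven (m x1 x2 (hmem _ (by simp)) (hmem _ (by simp)))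
      (m x3 x4 (hmem _ (by simp)) (hmem _ (by simp)))
      (m x5 x6 (hmem _ (by simp)) (hmem _ (by simp)))
      (m x7 x8 (hmem _ (by simp)) (hmem _ (by simp)))
      (m x9 x10 (hmem _ (by simp)) (hmem _ (by simp)))
      (m x11 x12 (hmem _ (by simp)) (hmem _ (by simp)))
      (m x13 x14 (hmem _ (by simp)) (hmem _ (by simp)))
    have h8 := h7 t
    rw [one_mul]
    simp only [List.map_cons, List.map_nil, List.prod_cons, List.prod_nil, mul_one]
    rw [← h8]
    show _ = (L x1 * L x2) * (L x3 * L x4) * (L x5 * L x6) * (L x7 * L x8) * (L x9 * L x10) *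
      (L x11 * L x12) * (L x13 * L x14) * L t
    simp only [mul_assoc]
  have hW : Wd S 15 = ⊥ := by
    rw [eq_bot_iff]
    intro w hw
    exact Wd_zero 15 1 h14 w hw
  have h5 : sq^[15] S = ⊥ := by
    rw [eq_bot_iff, ← hW]
    exact sq_le_Wd hSS 15
  have h6 : sq^[27] (⊤ : AddSubgroup A) = sq^[15] (sq^[12] ⊤) := by
    rw [← Function.iterate_add_apply]
  rw [h6]
  exact h5

end Pool.Agent.H.MP_e16c79_al.N4
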