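import Pool.Agent.H.MP_e16c79_al.N4.Basic

/-!
# MP_e16c79_al, index four: multiplication operators
-/

set_option autoImplicit false

namespace Pool.Agent.H.MP_e16c79_al.N4

variable {A : Type*} [NonUnitalNonAssocCommRing A]

/-- The multiplication operator. -/
def L : A →+ AddMonoid.End A := AddMonoid.End.mulLeft

theorem L_apply (a x : A) : L a x = a * x := rfl

theorem TF.end_two (h : TF A) {f : AddMonoid.End A} (hf : (2 : ℤ) • f = 0) : f = 0 := by
  ext x
  refine h.two _ ?_
  have h1 := DFunLike.congr_fun hf x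
  exact h1

theorem TF.end_three (h : TF A) {f : AddMonoid.End A} (hf : (3 : ℤ) • f = 0) : f = 0 := by
  ext x
  refine h.three _ ?_
  have h1 := DFunLike.congr_fun hf x
  exact h1

theorem TF.end_pow (h : TF A) (i j : ℕ) {f : AddMonoid.End A}
    (hf : ((2 : ℤ) ^ i * 3 ^ j) • f = 0) : f = 0 := by
  induction i with
  | zero =>
    induction j with
    | zero => simpa using hf
    | succ j ih =>
      refine ih ?_
      refine h.end_three ?_
      rw [← mul_smul]
      rw [pow_succ, ← mul_assoc, mul_comm] at hf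
      exact hf
  | succ i ih =>
    refine ih ?_
    refine h.end_two ?_
    rw [← mul_smul]
    have h1 : (2 : ℤ) ^ (i + 1) * 3 ^ j = 2 * (2 ^ i * 3 ^ j) := by ring
    rw [h1] at hf
    exact hf

/-- the Jordan identity, linearized -/
theorem jordan3 [IsCommJordan A] (hT : TF A) (a b c t : A) :
    a * ((b * c) * t) + b * ((c * a) * t) + c * ((a * b) * t) =
      (b * c) * (a * t) + (c * a) * (b * t) + (a * b) * (c * t) := by
  have h := two_nsmul_lie_lmul_lmul_add_add_eq_zero a b c
  have h1 := DFunLike.congr_fun h t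
  simp only [Ring.lie_def] at h1
  have h2 : (2 : ℤ) • ((a * ((b * c) * t) - (b * c) * (a * t)) +
      (b * ((c * a) * t) - (c * a) * (b * t)) +
      (c * ((a * b) * t) - (a * b) * (c * t))) = 0 := by
    rw [ofNat_zsmul]
    exact h1
  have h3 := hT.two _ h2
  rw [← sub_eq_zero, ← h3]
  abel

/-- (B) -/
theorem idB [IsCommJordan A] (hT : TF A) (h4 : ∀ a : A, a * (a * (a * a)) = 0)
    (x y z t : A) : z * ((x * y) * t) + x * ((y * z) * t) + y * ((z * x) * t) = 0 := by
  rw [jordan3 hT z x y t]
  rw [← idA hT h4 x y z t, mul_comm z t, mul_comm (y * z) (x * t), mul_comm z x]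
  rw [mul_comm t z]
  abel

end Pool.Agent.H.MP_e16c79_al.N4
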