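import Pool.Agent.H.MP_e16c79_al.N4.Chk
import Pool.Agent.H.MP_e16c79_al.N4.Frame

/-!
# MP_e16c79_al, index four: operators with their reversals
-/

set_option autoImplicit false

namespace Pool.Agent.H.MP_e16c79_al.N4

open MulOpposite

variable {A : Type*} [NonUnitalNonAssocCommRing A]

/-- operators with reversals -/
abbrev RR (A : Type*) [NonUnitalNonAssocCommRing A] := AddMonoid.End A × (AddMonoid.End A)ᵐᵒᵖ

/-- multiplication by `x`, twice -/
def L2 : A →+ RR A where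
  toFun x := (L x, op (L x))
  map_zero' := by
    rw [map_zero]
    rfl
  map_add' x y := by
    rw [map_add]
    rfl

theorem L2_fst (x : A) : (L2 x).1 = L x := rfl

theorem L2_snd (x : A) : (L2 x).2 = op (L x) := rfl

section rel

variable (h : Nil4 A)
include h

theorem Nil4.q1 (x y z : A) :
    L2 (x * y) * L2 z + L2 (y * z) * L2 x + L2 (z * x) * L2 y = 0 := by
  refine Prod.ext ?_ ?_
  · exact h.r1 x y z
  · show op (L (x * y)) * op (L z) + op (L (y * z)) * op (L x) + op (L (z * x)) * op (L y) = 0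
    rw [← op_mul, ← op_mul, ← op_mul, ← op_add, ← op_add, h.r2, op_zero]

theorem Nil4.q2 (x y z : A) :
    L2 z * L2 (x * y) + L2 x * L2 (y * z) + L2 y * L2 (z * x) = 0 := by
  refine Prod.ext ?_ ?_
  · exact h.r2 x y z
  · show op (L z) * op (L (x * y)) + op (L x) * op (L (y * z)) + op (L y) * op (L (z * x)) = 0
    rw [← op_mul, ← op_mul, ← op_mul, ← op_add, ← op_add, h.r1, op_zero]

theorem Nil4.q3 (x y t : A) :
    L2 ((x * y) * t) = -(L2 x * L2 t * L2 y + L2 y * L2 t * L2 x) := by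
  refine Prod.ext ?_ ?_
  · exact h.r3 x y t
  · show op (L ((x * y) * t)) = -(op (L x) * op (L t) * op (L y) + op (L y) * op (L t) * op (L x))
    rw [h.r3, ← op_mul, ← op_mul, ← op_mul, ← op_mul, ← op_add, ← op_neg, add_comm]
    simp only [mul_assoc]

end rel

/-- `w` is in the subgroup up to a factor `6 ^ k` -/
def sat {R : Type*} [AddCommGroup R] (M : AddSubgroup R) : AddSubgroup R where
  carrier := {w | ∃ k : ℕ, ((6 : ℤ) ^ k) • w ∈ M}
  zero_mem' := ⟨0, by
    rw [smul_zero]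
    exact M.zero_mem⟩
  add_mem' := by
    rintro a b ⟨k, hk⟩ ⟨l, hl⟩
    refine ⟨k + l, ?_⟩
    have e1 : ((6 : ℤ) ^ (k + l)) • (a + b) =
        ((6 : ℤ) ^ l) • (((6 : ℤ) ^ k) • a) + ((6 : ℤ) ^ k) • (((6 : ℤ) ^ l) • b) := by
      rw [smul_add, ← mul_smul, ← mul_smul, pow_add, mul_comm ((6 : ℤ) ^ l)]
    rw [e1]
    exact M.add_mem (M.zsmul_mem hk _) (M.zsmul_mem hl _)
  neg_mem' := by
    rintro a ⟨k, hk⟩
    refine ⟨k, ?_⟩
    rw [smul_neg]
    exact M.neg_mem hk

theorem sat_le {R : Type*} [AddCommGroup R] {M : AddSubgroup R} : M ≤ sat M := fun w hw =>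
  ⟨0, by
    rw [pow_zero, one_smul]
    exact hw⟩

theorem sat_mono {R : Type*} [AddCommGroup R] {M N : AddSubgroup R} (h : M ≤ N) :
    sat M ≤ sat N := by
  rintro w ⟨k, hk⟩
  exact ⟨k, h hk⟩

theorem sat_pow {R : Type*} [AddCommGroup R] {M : AddSubgroup R} {w : R} (k : ℕ)
    (h : ((6 : ℤ) ^ k) • w ∈ sat M) : w ∈ sat M := by
  obtain ⟨l, hl⟩ := h
  refine ⟨l + k, ?_⟩
  rw [pow_add, mul_smul]
  exact hl

theorem sat_two {R : Type*} [AddCommGroup R] {M : AddSubgroup R} {w : R}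
    (h : (2 : ℤ) • w ∈ sat M) : w ∈ sat M := by
  refine sat_pow 1 ?_
  have e : ((6 : ℤ) ^ 1) • w = (3 : ℤ) • ((2 : ℤ) • w) := by
    rw [← mul_smul]
    norm_num
  rw [e]
  exact (sat M).zsmul_mem h 3

theorem sat_three {R : Type*} [AddCommGroup R] {M : AddSubgroup R} {w : R}
    (h : (3 : ℤ) • w ∈ sat M) : w ∈ sat M := by
  refine sat_pow 1 ?_
  have e : ((6 : ℤ) ^ 1) • w = (2 : ℤ) • ((3 : ℤ) • w) := by
    rw [← mul_smul]
    norm_num
  rw [e]
  exact (sat M).zsmul_mem h 2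

theorem TF.six_pow (h : TF A) (k : ℕ) {f : AddMonoid.End A} (hf : ((6 : ℤ) ^ k) • f = 0) :
    f = 0 := by
  refine h.end_pow k k ?_
  rw [← mul_pow]
  exact hf

/-- The span of the words of length two. -/
def V2 (S : AddSubgroup A) : AddSubgroup (RR A) :=
  AddSubgroup.closure {w | ∃ x ∈ S, ∃ y ∈ S, w = L2 x * L2 y}

/-- The saturated span of the words of length two. -/
def V (S : AddSubgroup A) : AddSubgroup (RR A) := sat (V2 S)

theorem mem_V {S : AddSubgroup A} {x y : A} (hx : x ∈ S) (hy : y ∈ S) : L2 x * L2 y ∈ V S :=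
  sat_le (AddSubgroup.subset_closure ⟨x, hx, y, hy, rfl⟩)

theorem V_mono {S T : AddSubgroup A} (h : S ≤ T) : V S ≤ V T := by
  refine sat_mono (AddSubgroup.closure_mono ?_)
  rintro w ⟨x, hx, y, hy, rfl⟩
  exact ⟨x, h hx, y, h hy, rfl⟩

/-- products of spans -/
theorem V_mul_mem {S T : AddSubgroup A}
    (H : ∀ x ∈ T, ∀ y ∈ T, ∀ z ∈ T, ∀ t ∈ T, L2 x * L2 y * (L2 z * L2 t) ∈ V S)
    {v w : RR A} (hv : v ∈ V T) (hw : w ∈ V T) : v * w ∈ V S := by
  have h1 : ∀ v ∈ V2 T, ∀ w ∈ V2 T, v * w ∈ V S := by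
    intro v hv w hw
    have h2 : ∀ x ∈ T, ∀ y ∈ T, L2 x * L2 y * w ∈ V S := by
      intro x hx y hy
      have h3 : V2 T ≤ (V S).comap (AddMonoidHom.mulLeft (L2 x * L2 y)) := by
        refine (AddSubgroup.closure_le _).2 ?_
        rintro u ⟨z, hz, t, ht, rfl⟩
        exact H x hx y hy z hz t ht
      exact h3 hw
    have h4 : V2 T ≤ (V S).comap (AddMonoidHom.mulRight w) := by
      refine (AddSubgroup.closure_le _).2 ?_
      rintro u ⟨x, hx, y, hy, rfl⟩
      exact h2 x hx y hy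
    exact h4 hv
  obtain ⟨k, hk⟩ := hv
  obtain ⟨l, hl⟩ := hw
  have h5 := h1 _ hk _ hl
  refine sat_pow (k + l) ?_
  have e : ((6 : ℤ) ^ (k + l)) • (v * w) = ((6 : ℤ) ^ k • v) * ((6 : ℤ) ^ l • w) := by
    rw [smul_mul_smul_comm, pow_add]
  rw [e]
  exact h5

/-- the property of a pair `(e, e*)` -/
def Pr (f g : AddMonoid.End A) : Prop := ∀ t : A, f * L t + L t * g = -L (g t)

theorem Pr_of_V (h : Nil4 A) {S : AddSubgroup A} {w : RR A} (hw : w ∈ V S) :
    Pr w.1 (unop w.2) := by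
  intro t
  have h1 : V2 S ≤ ((AddMonoidHom.mk' (fun w : RR A => w.1 * L t + L t * unop w.2 +
      L ((unop w.2) t)) (by
        intro a b
        have e : (unop a.2 + unop b.2) t = unop a.2 t + unop b.2 t := rfl
        simp only [Prod.fst_add, Prod.snd_add, unop_add, add_mul, mul_add, e]
        rw [map_add]
        abel)) : RR A →+ AddMonoid.End A).ker := by
    refine (AddSubgroup.closure_le _).2 ?_
    rintro u ⟨x, -, y, -, rfl⟩
    show L x * L y * L t + L t * (L y * L x) + L (y * (x * t)) = 0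
    have e : y * (x * t) = (x * t) * y := mul_comm _ _
    rw [e, h.r3]
    simp only [mul_assoc]
    abel
  obtain ⟨k, hk⟩ := hw
  have h2 := h1 hk
  have h3 : ((6 : ℤ) ^ k) • (w.1 * L t + L t * unop w.2 + L ((unop w.2) t)) = 0 := by
    rw [← h2]
    show _ = ((6 : ℤ) ^ k • w).1 * L t + L t * unop ((6 : ℤ) ^ k • w).2 +
      L ((unop ((6 : ℤ) ^ k • w).2) t)
    have e1 : ((6 : ℤ) ^ k • w).1 = (6 : ℤ) ^ k • w.1 := rfl
    have e2 : unop ((6 : ℤ) ^ k • w).2 = (6 : ℤ) ^ k • unop w.2 := rfl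
    have e3 : ((6 : ℤ) ^ k • unop w.2) t = (6 : ℤ) ^ k • (unop w.2 t) := rfl
    rw [e1, e2, e3, map_zsmul, smul_mul_assoc, mul_smul_comm, zsmul_add, zsmul_add]
  have h4 := h.tf.six_pow k h3
  rw [← sub_eq_zero, sub_neg_eq_add]
  exact h4

/-- STEP 1: the cube annihilates. -/
theorem cube_zero (hT : TF A) {f g : AddMonoid.End A} (h1 : Pr f g) (h2 : Pr (f * f) (g * g))
    (h3 : Pr (f * f * f) (g * g * g)) (t : A) : f * f * f * L t = 0 := by
  have g2 : ∀ s, (g * g) s = g (g s) := fun _ => rfl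
  have g3 : ∀ s, (g * g * g) s = g (g (g s)) := fun _ => rfl
  have hA : ∀ s, f * L s * g = L (g (g s)) := by
    intro s
    have a1 := h1 s
    have a2 := h1 (g s)
    have a3 := h2 s
    rw [g2] at a3
    have a4 : f * (f * L s + L s * g) + (f * L s + L s * g) * g = L (g (g s)) := by
      rw [a1, mul_neg, neg_mul, ← neg_add, a2, neg_neg]
    refine sub_eq_zero.1 (hT.end_two ?_)
    have a5 : (2 : ℤ) • (f * L s * g - L (g (g s))) =
        (f * (f * L s + L s * g) + (f * L s + L s * g) * g - L (g (g s))) -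
          ((f * f * L s + L s * (g * g)) - -L (g (g s))) := by
      noncomm_ring
    rw [a5, a4, a3, sub_self, sub_self, sub_zero]
  have hB : ∀ s, f * L (g s) = L s * (g * g) := by
    intro s
    have a1 := h1 s
    have a3 := h2 s
    rw [g2] at a3
    have a4 : L (g s) = -(f * L s + L s * g) := by rw [a1, neg_neg]
    rw [a4, mul_neg, mul_add, ← mul_assoc, ← mul_assoc, hA]
    rw [← sub_eq_zero] at a3 ⊢
    rw [← neg_eq_zero, ← a3]
    abel
  have hC : ∀ s, L (g s) * g = f * f * L s := by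
    intro s
    have a1 := h1 s
    have a3 := h2 s
    rw [g2] at a3
    have a4 : L (g s) = -(f * L s + L s * g) := by rw [a1, neg_neg]
    rw [a4, neg_mul, add_mul, hA]
    rw [← sub_eq_zero] at a3 ⊢
    rw [← neg_eq_zero, ← a3]
    simp only [mul_assoc]
    abel
  have e1 : f * f * f * L t = L (g (g (g t))) := by
    rw [← hA (g t), mul_assoc f (L (g t)) g, hC]
    simp only [mul_assoc]
  have e2 : L t * (g * g * g) = L (g (g (g t))) := by
    rw [← hA (g t), hB, mul_assoc (L t)]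
  have a6 := h3 t
  rw [g3, e1, e2] at a6
  rw [e1]
  refine hT.end_three ?_
  have a7 : (3 : ℤ) • L (g (g (g t))) =
      (L (g (g (g t))) + L (g (g (g t)))) + L (g (g (g t))) := by
    abel
  rw [a7, a6, neg_add_cancel]

end Pool.Agent.H.MP_e16c79_al.N4
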