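import Pool.Agent.H.MP_e16c79_al.N4.Dat3

/-!
# MP_e16c79_al: rings of nil index three are solvable
-/

set_option autoImplicit false

namespace Pool.Agent.H.MP_e16c79_al.N4

variable {A : Type*} [NonUnitalNonAssocCommRing A]

/-- an additive function which vanishes on the squares vanishes on `sq ⊤` -/
theorem add_sq {M : Type*} [AddCommGroup M] (h2 : ∀ y : M, (2 : ℤ) • y = 0 → y = 0)
    (f : A →+ M) (hf : ∀ a, f (a * a) = 0) {p : A} (hp : p ∈ sq (⊤ : AddSubgroup A)) :
    f p = 0 := by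
  have h1 : sq (⊤ : AddSubgroup A) ≤ f.ker := by
    refine (AddSubgroup.closure_le _).2 ?_
    rintro x ⟨a, -, b, -, rfl⟩
    show f (a * b) = 0
    refine h2 _ ?_
    have e1 : (2 : ℤ) • (a * b) = (a + b) * (a + b) - a * a - b * b := by
      rw [two_smul, mul_add, add_mul, add_mul, mul_comm b a]
      abel
    rw [← map_zsmul, e1, map_sub, map_sub, hf, hf, hf, sub_zero, sub_zero]
  exact h1 hp

theorem four_sq (h : Nil3 A) (a b c d : A) :
    L (((a * a) * (b * b)) * ((c * c) * (d * d))) = 0 := by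
  have h0 := check3_sound h a b c d chk3
  have h1 := h.tf.end_pow 3 2 (f := F3 a b c d [0, 0, 1, 1, 2, 2, 3, 3]) (by
      have e : (2 : ℤ) ^ 3 * 3 ^ 2 = 72 := by norm_num
      rw [e]
      exact h0)
  refine h.tf.end_two ?_
  have e : ∀ x y : A, L (x * y) = -(L x * L y + L y * L x) := h.r0
  rw [e, e (a * a), e (c * c), e a a, e b b, e c c, e d d]
  have h2 : F3 a b c d [0, 0, 1, 1, 2, 2, 3, 3] = (2 : ℤ) • (
      (L a * L a * (L b * L b) + L b * L b * (L a * L a)) *
        (L c * L c * (L d * L d) + L d * L d * (L c * L c)) +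
      (L c * L c * (L d * L d) + L d * L d * (L c * L c)) *
        (L a * L a * (L b * L b) + L b * L b * (L a * L a))) := by
    simp only [F3, W3, w3, vec, List.map_cons, List.map_nil, List.prod_cons, List.prod_nil,
      List.reverse_cons, List.reverse_nil, List.nil_append, List.cons_append, if_true, if_false,
      one_ne_zero, OfNat.ofNat_ne_zero, OfNat.ofNat_ne_one, mul_one, Nat.reduceEqDiff]
    noncomm_ring
  rw [h2] at h1
  have h3 := h.tf.end_two h1
  have h4 : ∀ X Y Z W : AddMonoid.End A,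
      (2 : ℤ) • -(-(-(X * X + X * X) * -(Y * Y + Y * Y) + -(Y * Y + Y * Y) * -(X * X + X * X)) *
        -(-(Z * Z + Z * Z) * -(W * W + W * W) + -(W * W + W * W) * -(Z * Z + Z * Z)) +
        -(-(Z * Z + Z * Z) * -(W * W + W * W) + -(W * W + W * W) * -(Z * Z + Z * Z)) *
        -(-(X * X + X * X) * -(Y * Y + Y * Y) + -(Y * Y + Y * Y) * -(X * X + X * X))) =
      (-32 : ℤ) • ((X * X * (Y * Y) + Y * Y * (X * X)) * (Z * Z * (W * W) + W * W * (Z * Z)) +
        (Z * Z * (W * W) + W * W * (Z * Z)) * (X * X * (Y * Y) + Y * Y * (X * X))) := by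
    intro X Y Z W
    noncomm_ring
  rw [h4, h3]
  exact zsmul_zero _

theorem end_two' (h : TF A) : ∀ y : AddMonoid.End A, (2 : ℤ) • y = 0 → y = 0 :=
  fun _ hy => h.end_two hy

/-- products of products of elements of `J²` annihilate the ring -/
theorem mul_mul_zero (h : Nil3 A) {p q r s : A} (hp : p ∈ sq (⊤ : AddSubgroup A))
    (hq : q ∈ sq (⊤ : AddSubgroup A)) (hr : r ∈ sq (⊤ : AddSubgroup A))
    (hs : s ∈ sq (⊤ : AddSubgroup A)) : L ((p * q) * (r * s)) = 0 := by
  have h2 := end_two' h.tf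
  have z1 : ∀ a b c : A, L (((a * a) * (b * b)) * ((c * c) * s)) = 0 := by
    intro a b c
    refine add_sq h2 (AddMonoidHom.mk' (fun x => L (((a * a) * (b * b)) * ((c * c) * x)))
      fun x y => ?_) (fun x => ?_) hs
    · simp only [mul_add, map_add]
    · exact four_sq h a b c x
  have z2 : ∀ a b : A, L (((a * a) * (b * b)) * (r * s)) = 0 := by
    intro a b
    refine add_sq h2 (AddMonoidHom.mk' (fun x => L (((a * a) * (b * b)) * (x * s)))
      fun x y => ?_) (fun x => ?_) hr
    · simp only [add_mul, mul_add, map_add]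
    · exact z1 a b x
  have z3 : ∀ a : A, L (((a * a) * q) * (r * s)) = 0 := by
    intro a
    refine add_sq h2 (AddMonoidHom.mk' (fun x => L (((a * a) * x) * (r * s)))
      fun x y => ?_) (fun x => ?_) hq
    · simp only [add_mul, mul_add, map_add]
    · exact z2 a x
  refine add_sq h2 (AddMonoidHom.mk' (fun x => L ((x * q) * (r * s)))
    fun x y => ?_) (fun x => ?_) hp
  · simp only [add_mul, map_add]
  · exact z3 x

/-- RINGS OF NIL INDEX THREE: the fourth derived ring vanishes. -/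
theorem nil3_solv (h : Nil3 A) : sq^[4] (⊤ : AddSubgroup A) = ⊥ := by
  have h1 : ∀ u ∈ sq (sq (⊤ : AddSubgroup A)), ∀ v ∈ sq (sq (⊤ : AddSubgroup A)),
      L (u * v) = 0 := by
    intro u hu v hv
    have h2 : ∀ p ∈ sq (⊤ : AddSubgroup A), ∀ q ∈ sq (⊤ : AddSubgroup A),
        L ((p * q) * v) = 0 := by
      intro p hp q hq
      have h3 : sq (sq (⊤ : AddSubgroup A)) ≤ (L.comp (AddMonoidHom.mulLeft (p * q))).ker := by
        refine (AddSubgroup.closure_le _).2 ?_
        rintro x ⟨r, hr, s, hs, rfl⟩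
        exact mul_mul_zero h hp hq hr hs
      exact h3 hv
    have h4 : sq (sq (⊤ : AddSubgroup A)) ≤ (L.comp (AddMonoidHom.mulRight v)).ker := by
      refine (AddSubgroup.closure_le _).2 ?_
      rintro x ⟨p, hp, q, hq, rfl⟩
      exact h2 p hp q hq
    exact h4 hu
  have h5 : sq (sq (sq (⊤ : AddSubgroup A))) ≤ (L : A →+ AddMonoid.End A).ker := by
    refine (AddSubgroup.closure_le _).2 ?_
    rintro x ⟨u, hu, v, hv, rfl⟩
    exact h1 u hu v hv
  show sq (sq (sq (sq (⊤ : AddSubgroup A)))) = ⊥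
  rw [eq_bot_iff]
  refine (AddSubgroup.closure_le _).2 ?_
  rintro x ⟨u, hu, v, hv, rfl⟩
  have h6 : L u = 0 := h5 hu
  show u * v = 0
  have h7 := DFunLike.congr_fun h6 v
  exact h7

/-- The frame: if the elements of a derived ring have cubes in the annihilator (linearized), then the ring is
solvable. -/
theorem solv_frame (hT : TF A) (k : ℕ)
    (hC : ∀ u ∈ sq^[k] (⊤ : AddSubgroup A), ∀ v ∈ sq^[k] (⊤ : AddSubgroup A),
      ∀ w ∈ sq^[k] (⊤ : AddSubgroup A), ∀ t, ((u * v) * w + (v * w) * u + (w * u) * v) * t = 0) :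
    sq^[k + 5] (⊤ : AddSubgroup A) = ⊥ := by
  have hQ : TF (Quo A) := quo_tf hT
  let B : AddSubgroup (Quo A) := sq^[k] ⊤
  have hB : sq B ≤ B := iter_le k
  have hmap : (sq^[k] (⊤ : AddSubgroup A)).map quo = B := by
    rw [map_iter quo quo_mul, AddSubgroup.map_top_of_surjective _ quo_surj]
  have h3 : Nil3 (Sub B hB) := by
    refine ⟨Sub.tf hQ, fun x y z => ?_⟩
    have hx := Sub.incHom_mem x
    have hy := Sub.incHom_mem y
    have hz := Sub.incHom_mem z
    obtain ⟨u, hu, hux⟩ := hmap.ge hx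
    obtain ⟨v, hv, hvy⟩ := hmap.ge hy
    obtain ⟨w, hw, hwz⟩ := hmap.ge hz
    apply Sub.inc_inj
    show Sub.incHom ((x * y) * z + (y * z) * x + (z * x) * y) =
      Sub.incHom (0 : Sub B hB)
    simp only [map_add, Sub.incHom_mul, map_zero]
    rw [← hux, ← hvy, ← hwz]
    simp only [← quo_mul, ← map_add]
    exact quo_eq_zero.2 (hC u hu v hv w hw)
  have h4 := Sub.iter_eq (nil3_solv h3)
  have h5 : sq^[k + 4] (⊤ : AddSubgroup (Quo A)) = ⊥ := by
    rw [add_comm, Function.iterate_add_apply]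
    exact h4
  exact quo_iter h5

end Pool.Agent.H.MP_e16c79_al.N4
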