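import Pool.Agent.H.MP_e16c79_al.N4.Lev4

/-!
# MP_e16c79_al, index four: the class of a product of four operators
-/

set_option autoImplicit false

namespace Pool.Agent.H.MP_e16c79_al.N4

variable {A : Type*} [NonUnitalNonAssocCommRing A]

theorem Sub.comm [IsCommJordan A] {B : AddSubgroup A} {hB : sq B ≤ B} :
    IsCommJordan (Sub B hB) := by
  refine ⟨fun x y => ?_⟩
  apply Sub.inc_inj
  exact IsCommJordan.lmul_comm_rmul_rmul (Sub.inc x) (Sub.inc y)

/-- the target -/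
abbrev MM (S : AddSubgroup A) := RR A ⧸ V S

theorem MM_tf (S : AddSubgroup A) : TF (MM S) := by
  constructor
  · intro a ha
    obtain ⟨w, rfl⟩ := QuotientAddGroup.mk_surjective a
    rw [← QuotientAddGroup.mk_zsmul, QuotientAddGroup.eq_zero_iff] at ha
    rw [QuotientAddGroup.eq_zero_iff]
    exact sat_two ha
  · intro a ha
    obtain ⟨w, rfl⟩ := QuotientAddGroup.mk_surjective a
    rw [← QuotientAddGroup.mk_zsmul, QuotientAddGroup.eq_zero_iff] at ha
    rw [QuotientAddGroup.eq_zero_iff]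
    exact sat_three ha

section f

variable {S : AddSubgroup A} {hS : sq S ≤ S}

/-- the class of `L_p L_r L_z L_y` -/
def fq (p z r y : Sub S hS) : MM S :=
  QuotientAddGroup.mk (L2 p.inc * L2 r.inc * (L2 z.inc * L2 y.inc))

theorem fq_zero {p z r y : Sub S hS} :
    fq p z r y = 0 ↔ L2 p.inc * L2 r.inc * (L2 z.inc * L2 y.inc) ∈ V S := by
  unfold fq
  rw [QuotientAddGroup.eq_zero_iff]

theorem inc_add (p q : Sub S hS) : (p + q).inc = p.inc + q.inc := rfl

theorem inc_mul (p q : Sub S hS) : (p * q).inc = p.inc * q.inc := rfl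

theorem inc_mem (p : Sub S hS) : p.inc ∈ S := p.v.2

theorem fq_add1 (p q z r y : Sub S hS) : fq (p + q) z r y = fq p z r y + fq q z r y := by
  unfold fq
  rw [inc_add, map_add, add_mul, add_mul, QuotientAddGroup.mk_add]

theorem fq_add3 (p z r s y : Sub S hS) : fq p z (r + s) y = fq p z r y + fq p z s y := by
  unfold fq
  rw [inc_add, map_add, mul_add, add_mul, QuotientAddGroup.mk_add]

theorem fq_add2 (p q z r y : Sub S hS) : fq z (p + q) r y = fq z p r y + fq z q r y := by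
  unfold fq
  rw [inc_add, map_add, add_mul, mul_add, QuotientAddGroup.mk_add]

theorem fq_add4 (p z r s y : Sub S hS) : fq p z y (r + s) = fq p z y r + fq p z y s := by
  unfold fq
  rw [inc_add, map_add, mul_add, mul_add, QuotientAddGroup.mk_add]

theorem fq_skewL (h : Nil4 A) (p z r y : Sub S hS) : fq p z r y = -fq z p r y := by
  rw [eq_neg_iff_add_eq_zero]
  unfold fq
  rw [← QuotientAddGroup.mk_add, QuotientAddGroup.eq_zero_iff]
  have e : L2 p.inc * L2 r.inc * (L2 z.inc * L2 y.inc) +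
      L2 z.inc * L2 r.inc * (L2 p.inc * L2 y.inc) =
      -(L2 ((p.inc * z.inc) * r.inc) * L2 y.inc) := by
    rw [h.q3]
    noncomm_ring
  rw [e]
  refine (V S).neg_mem (mem_V ?_ (inc_mem y))
  exact inc_mem ((p * z) * r)

theorem fq_skewR (h : Nil4 A) (p z r y : Sub S hS) : fq p z r y = -fq p z y r := by
  rw [eq_neg_iff_add_eq_zero]
  unfold fq
  rw [← QuotientAddGroup.mk_add, QuotientAddGroup.eq_zero_iff]
  have e : L2 p.inc * L2 r.inc * (L2 z.inc * L2 y.inc) +
      L2 p.inc * L2 y.inc * (L2 z.inc * L2 r.inc) =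
      -(L2 p.inc * L2 ((r.inc * y.inc) * z.inc)) := by
    rw [h.q3]
    noncomm_ring
  rw [e]
  refine (V S).neg_mem (mem_V (inc_mem p) ?_)
  exact inc_mem ((r * y) * z)

theorem fq_t1 (h : Nil4 A) (a b c z y : Sub S hS) :
    fq a z (b * c) y + fq b z (c * a) y + fq c z (a * b) y = 0 := by
  unfold fq
  rw [← QuotientAddGroup.mk_add, ← QuotientAddGroup.mk_add, ← add_mul, ← add_mul]
  have h2 := h.q2 a.inc b.inc c.inc
  have e : L2 a.inc * L2 (b * c).inc + L2 b.inc * L2 (c * a).inc + L2 c.inc * L2 (a * b).inc =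
      0 := by
    rw [← h2, inc_mul, inc_mul, inc_mul]
    abel
  rw [e, zero_mul]
  rfl

theorem fq_t2 (h : Nil4 A) (a b c z y : Sub S hS) :
    fq (b * c) z a y + fq (c * a) z b y + fq (a * b) z c y = 0 := by
  unfold fq
  rw [← QuotientAddGroup.mk_add, ← QuotientAddGroup.mk_add, ← add_mul, ← add_mul]
  have h2 := h.q1 a.inc b.inc c.inc
  have e : L2 (b * c).inc * L2 a.inc + L2 (c * a).inc * L2 b.inc + L2 (a * b).inc * L2 c.inc =
      0 := by
    rw [← h2, inc_mul, inc_mul, inc_mul]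
    abel
  rw [e, zero_mul]
  rfl

/-- Step 3 for one subring, from the certificate. -/
theorem step3_sub (hmain : ∀ a b c d e : Sub S hS,
    fq ((a * a) * (b * b)) (c * c) (d * d) (e * e) = 0) :
    ∀ x ∈ sq (sq S), ∀ y ∈ sq S, ∀ z ∈ sq S, ∀ t ∈ sq S,
      L2 x * L2 y * (L2 z * L2 t) ∈ V S := by
  -- an additive map which is in `V S` on squares is in `V S` on `sq S`
  have key : ∀ (f : A → RR A), (∀ x y, f (x + y) = f x + f y) →
      (∀ a : Sub S hS, f (a.inc * a.inc) ∈ V S) → ∀ x ∈ sq S, f x ∈ V S := by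
    intro f hadd hf x hx
    have h1 : sq S ≤ (V S).comap (AddMonoidHom.mk' f hadd) := by
      refine (AddSubgroup.closure_le _).2 ?_
      rintro x ⟨a, ha, b, hb, rfl⟩
      show f (a * b) ∈ V S
      have e0 : ∀ w : RR A, (2 : ℤ) • w ∈ V S → w ∈ V S := fun w hw => sat_two (M := V2 S) hw
      refine e0 _ ?_
      have e1 : (2 : ℤ) • (a * b) = (a + b) * (a + b) - a * a - b * b := by
        rw [two_smul, mul_add, add_mul, add_mul, mul_comm b a]
        abel
      have h2 := hf ⟨⟨a + b, S.add_mem ha hb⟩⟩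
      have h3 := hf ⟨⟨a, ha⟩⟩
      have h4 := hf ⟨⟨b, hb⟩⟩
      show (2 : ℤ) • (AddMonoidHom.mk' f hadd) (a * b) ∈ V S
      rw [← map_zsmul, e1, map_sub, map_sub]
      exact (V S).sub_mem ((V S).sub_mem h2 h3) h4
    exact h1 hx
  have s1 : ∀ a b c d e : Sub S hS, L2 ((a.inc * a.inc) * (b.inc * b.inc)) * L2 (d.inc * d.inc) *
      (L2 (c.inc * c.inc) * L2 (e.inc * e.inc)) ∈ V S := by
    intro a b c d e
    have h1 := fq_zero.1 (hmain a b c d e)
    rw [inc_mul, inc_mul, inc_mul, inc_mul, inc_mul, inc_mul] at h1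
    exact h1
  have s2 : ∀ a b c d : Sub S hS, ∀ t ∈ sq S, L2 ((a.inc * a.inc) * (b.inc * b.inc)) *
      L2 (d.inc * d.inc) * (L2 (c.inc * c.inc) * L2 t) ∈ V S := by
    intro a b c d
    refine key (fun t => L2 ((a.inc * a.inc) * (b.inc * b.inc)) *
      L2 (d.inc * d.inc) * (L2 (c.inc * c.inc) * L2 t)) (fun x y => ?_) (fun e => s1 a b c d e)
    rw [map_add, mul_add, mul_add]
  have s3 : ∀ a b d : Sub S hS, ∀ t ∈ sq S, ∀ z ∈ sq S,
      L2 ((a.inc * a.inc) * (b.inc * b.inc)) *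
      L2 (d.inc * d.inc) * (L2 z * L2 t) ∈ V S := by
    intro a b d t ht
    refine key (fun z => L2 ((a.inc * a.inc) * (b.inc * b.inc)) *
      L2 (d.inc * d.inc) * (L2 z * L2 t)) (fun x y => ?_) (fun c => s2 a b c d t ht)
    rw [map_add, add_mul, mul_add]
  have s4 : ∀ a b : Sub S hS, ∀ z ∈ sq S, ∀ t ∈ sq S, ∀ y ∈ sq S,
      L2 ((a.inc * a.inc) * (b.inc * b.inc)) * L2 y * (L2 z * L2 t) ∈ V S := by
    intro a b z hz t ht
    refine key (fun y => L2 ((a.inc * a.inc) * (b.inc * b.inc)) *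
      L2 y * (L2 z * L2 t)) (fun x y => ?_) (fun d => s3 a b d t ht z hz)
    rw [map_add, mul_add, add_mul]
  have s5 : ∀ a : Sub S hS, ∀ y ∈ sq S, ∀ z ∈ sq S, ∀ t ∈ sq S, ∀ q ∈ sq S,
      L2 ((a.inc * a.inc) * q) * L2 y * (L2 z * L2 t) ∈ V S := by
    intro a y hy z hz t ht
    refine key (fun q => L2 ((a.inc * a.inc) * q) * L2 y * (L2 z * L2 t)) (fun x y => ?_)
      (fun b => s4 a b z hz t ht y hy)
    rw [mul_add, map_add, add_mul, add_mul]
  have s6 : ∀ q ∈ sq S, ∀ y ∈ sq S, ∀ z ∈ sq S, ∀ t ∈ sq S, ∀ p ∈ sq S,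
      L2 (p * q) * L2 y * (L2 z * L2 t) ∈ V S := by
    intro q hq y hy z hz t ht
    refine key (fun p => L2 (p * q) * L2 y * (L2 z * L2 t)) (fun x y => ?_)
      (fun a => s5 a y hy z hz t ht q hq)
    rw [add_mul, map_add, add_mul, add_mul]
  intro x hx y hy z hz t ht
  have h1 : sq (sq S) ≤ (V S).comap (AddMonoidHom.mk'
      (fun x => L2 x * L2 y * (L2 z * L2 t)) (by
        intro a b
        rw [map_add, add_mul, add_mul])) := by
    refine (AddSubgroup.closure_le _).2 ?_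
    rintro x ⟨p, hp, q, hq, rfl⟩
    exact s6 q hq y hy z hz t ht p hp
  exact h1 hx

end f

/-- the conclusion from the certificate for all subrings -/
theorem solv_of_main [IsCommJordan A] (hT : TF A) (h4 : ∀ a : A, a * (a * (a * a)) = 0)
    (hmain : ∀ (S : AddSubgroup A) (hS : sq S ≤ S) (a b c d e : Sub S hS),
      fq ((a * a) * (b * b)) (c * c) (d * d) (e * e) = 0) :
    ∃ (D : ℕ → AddSubgroup A) (k : ℕ), D 0 = ⊤ ∧
      (∀ i : ℕ, D (i + 1) = AddSubgroup.closure {x : A | ∃ a ∈ D i, ∃ b ∈ D i, x = a * b}) ∧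
      D k = ⊥ :=
  solv_of (solv_of_step3 (nil4_of hT h4) fun S hS => step3_sub (hmain S hS))

end Pool.Agent.H.MP_e16c79_al.N4
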